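import Pool.Agent.Frc.Col

/-!
# There are at most `μ` conditions in the collapse of `μ`
-/

universe u

set_option linter.unusedSectionVars false

namespace Pool.Agent.Frc

open Pool.Agent.SigB

variable {M : Type u} [Membership M M] [IsZFC M]

/-- Finite sequences can be coded by elements of `μ`. -/
theorem colP_le {μ : M} (hom : Sb SigB.om μ)
    (hess : Forc.Le (pd μ μ) μ) : Forc.Le (colP μ) μ := by
  classical
  obtain ⟨J, hJ, hJi⟩ := hess
  have hJv : ∀ x y, x ∈ μ → y ∈ μ → ap J (op x y) ∈ μ := fun x y hx hy =>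
    (mem_fs.1 hJ).2 _ (op_mem_pd.2 ⟨hx, hy⟩)
  have h0 : (SigB.em : M) ∈ μ := hom _ em_mem_om
  -- the codes
  obtain ⟨h, hh, hhs⟩ := choice' (a := colP μ) (b := pd SigB.om μ)
    (P := fun p z => ∃ n f, z = op n (ap f n) ∧ n ∈ (SigB.om : M) ∧ p ∈ fs n μ ∧
      ap f SigB.em = SigB.em ∧ (∀ k, k ∈ (SigB.om : M) →
        ap f (sc k) = ap J (op (ap f k) (ap p k))) ∧ ∀ k, k ∈ sc n → ap f k ∈ μ)
    (by simp (maxDischargeDepth := 50)) (by
      intro p hp
      obtain ⟨n, hn, hpn⟩ := mem_colP.1 hp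
      obtain ⟨f, hf, hfr⟩ := ord_recursion (K := (SigB.om : M)) om_ord
        (G := fun x h => if x = SigB.em then SigB.em else
          ap J (op (ap h (sU x)) (ap p (sU x)))) (by
          refine DT.ite (P := fun w : Fin 2 → M => w 0 = SigB.em) (by simp) (by simp) ?_
          simp (maxDischargeDepth := 50))
      have hf0 : ap f SigB.em = SigB.em := by
        rw [hfr _ em_mem_om, if_pos rfl]
      have hfs : ∀ k, k ∈ (SigB.om : M) → ap f (sc k) = ap J (op (ap f k) (ap p k)) := by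
        intro k hk
        have hne : sc k ≠ SigB.em := sc_ne_em k
        have hsk := sc_mem_om hk
        rw [hfr (sc k) hsk, if_neg hne, sU_sc_of_ord (om_ord.mem hk),
          ap_rs hf (om_ord.1 _ hsk) (mem_sc_self k)]
      have hv : ∀ k, k ∈ (SigB.om : M) → k ∈ sc n → ap f k ∈ μ := by
        refine om_ind (P := fun k => k ∈ sc n → ap f k ∈ μ) (by simp (maxDischargeDepth := 50))
          ?_ ?_
        · intro _
          rw [hf0]; exact h0
        · intro k hk ih hkn
          rw [hfs k hk]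
          have hon := ord_of_mem_om hn
          have hkn' : k ∈ n := by
            rcases mem_sc.1 hkn with h1 | h1
            · exact hon.trans (mem_sc_self k) h1
            · rw [← h1]; exact mem_sc_self k
          exact hJv _ _ (ih (mem_sc.2 (Or.inl hkn'))) ((mem_fs.1 hpn).2 k hkn')
      exact ⟨op n (ap f n), op_mem_pd.2 ⟨hn, hv n hn (mem_sc_self n)⟩, n, f, rfl, hn, hpn, hf0,
        hfs, fun k hk => hv k (om_ord.1 _ (sc_mem_om hn) k hk) hk⟩)
  have hle1 : Forc.Le (colP μ) (pd SigB.om μ) := by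
    refine ⟨h, hh, fun p q hp hq he => ?_⟩
    obtain ⟨n, f, h1, hn, hpn, hf0, hfs, hfv⟩ := hhs p hp
    obtain ⟨m, g, h2, hm, hqm, hg0, hgs, hgv⟩ := hhs q hq
    rw [he, h2] at h1
    obtain ⟨rfl, hval⟩ := op_inj.1 h1
    have hon := ord_of_mem_om hn
    have key : ∀ k, k ∈ (SigB.om : M) → k ∈ sc m → ap f k = ap g k →
        ∀ i, i ∈ k → ap p i = ap q i := by
      refine om_ind (P := fun k => k ∈ sc m → ap f k = ap g k →
        ∀ i, i ∈ k → ap p i = ap q i) (by simp (maxDischargeDepth := 50)) ?_ ?_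
      · intro _ _ i hi
        exact absurd hi (not_mem_em i)
      · intro k hk ih hkm hfg i hi
        have hkm' : k ∈ m := by
          rcases mem_sc.1 hkm with h1 | h1
          · exact hon.trans (mem_sc_self k) h1
          · rw [← h1]; exact mem_sc_self k
        have hkm2 : k ∈ sc m := mem_sc.2 (Or.inl hkm')
        rw [hfs k hk, hgs k hk] at hfg
        have h3 := hJi _ _ (op_mem_pd.2 ⟨hfv k hkm2, (mem_fs.1 hpn).2 k hkm'⟩)
          (op_mem_pd.2 ⟨hgv k hkm2, (mem_fs.1 hqm).2 k hkm'⟩) hfg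
        obtain ⟨h4, h5⟩ := op_inj.1 h3
        rcases mem_sc.1 hi with h6 | rfl
        · exact ih hkm2 h4 i h6
        · exact h5
    exact (mem_fs.1 hpn).1.ext (mem_fs.1 hqm).1 (key m hm (mem_sc_self m) hval.symm)
  exact (hle1.trans (Forc.Le.pd (Forc.Le.of_sb hom) (Forc.Le.refl μ))).trans ⟨J, hJ, hJi⟩

end Pool.Agent.Frc
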