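import Pool.Agent.Frc.Atom

/-!
Class recursion on the ordinals, the cumulative hierarchy, the collection scheme and the
well-ordering theorem in a model of ZFC.
-/

universe u

set_option linter.unusedSectionVars false

namespace Pool.Agent.Frc

open Pool.Agent.SigB

variable {M : Type u} [Membership M M] [IsZFC M]

/-! ### Functions -/

theorem fn_rs_self {f a : M} (h : Fn f a) : rs f a = f := by
  refine (fn_rs h (Sb.refl a)).ext h fun x hx => ?_
  rw [ap_rs h (Sb.refl a) hx]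

theorem rs_eq_lam {f a b : M} (hf : Fn f b) (hab : Sb a b) : rs f a = lam a (ap f) := by
  have hd : DT (fun w : Fin 1 → M => ap f (w 0)) := by simp (maxDischargeDepth := 50)
  refine (fn_rs hf hab).ext (fn_lam hd) fun x hx => ?_
  rw [ap_rs hf hab hx, ap_lam hd hx]

theorem lam_congr {a : M} {F F' : M → M} (hF : DT (fun w : Fin 1 → M => F (w 0)))
    (hF' : DT (fun w : Fin 1 → M => F' (w 0))) (h : ∀ x, x ∈ a → F x = F' x) :
    lam a F = lam a F' := by
  refine (fn_lam hF).ext (fn_lam hF') fun x hx => ?_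
  rw [ap_lam hF hx, ap_lam hF' hx, h x hx]

/-! ### Recursion on the ordinals -/

/-- The class function `F` on the ordinals with `F α = G α (F ↾ α)`. -/
noncomputable def orec (G : M → M → M) (α : M) : M :=
  cp fun z => ∃ f, Fn f (sc α) ∧ (∀ x, x ∈ sc α → ap f x = G x (rs f x)) ∧ z ∈ ap f α

@[simp] theorem dt_orec {n : ℕ} {G : (Fin n → M) → M → M → M} {s : (Fin n → M) → M}
    (hG : DT (fun w : Fin (n + 2) → M => G (fun i => w i.succ.succ) (w 1) (w 0))) (hs : DT s) :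
    DT (fun v => orec (G v) (s v)) := by
  refine dt_cp (P := fun v z => ∃ f, Fn f (sc (s v)) ∧
    (∀ x, x ∈ sc (s v) → ap f x = G v x (rs f x)) ∧ z ∈ ap f (s v)) ?_
  refine Dfn.ex (P := fun (w : Fin (n + 1) → M) f => Fn f (sc (s fun i => w i.succ)) ∧
    (∀ x, x ∈ sc (s fun i => w i.succ) → ap f x = G (fun i => w i.succ) x (rs f x)) ∧
      w 0 ∈ ap f (s fun i => w i.succ)) ?_
  have hs2 : DT (fun w : Fin (n + 2) → M => s fun i => w i.succ.succ) :=
    hs.ren (fun i => i.succ.succ)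
  refine Dfn.and (by simp (maxDischargeDepth := 50) [hs2]) (Dfn.and ?_
    (by simp (maxDischargeDepth := 50) [hs2]))
  refine Dfn.all (P := fun (w : Fin (n + 2) → M) x => x ∈ sc (s fun i => w i.succ.succ) →
    ap (w 0) x = G (fun i => w i.succ.succ) x (rs (w 0) x)) ?_
  have hs3 : DT (fun w : Fin (n + 3) → M => s fun i => w i.succ.succ.succ) :=
    hs.ren (fun i => i.succ.succ.succ)
  refine Dfn.imp (by simp (maxDischargeDepth := 50) [hs3]) ?_
  -- substitution of `rs f x` and `x`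
  have h1 : DT (fun w : Fin (n + 3) → M => G (fun i => w i.succ.succ.succ) (w 0)
      (rs (w 1) (w 0))) := by
    have h2 : Dfn (fun w : Fin (n + 4) → M => w 0 =
        G (fun i => w i.succ.succ.succ.succ) (w 1) (rs (w 2) (w 1))) := by
      refine Dfn.sub (P := fun (w : Fin (n + 4) → M) r => w 0 =
        G (fun i => w i.succ.succ.succ.succ) (w 1) r) (t := fun w => rs (w 2) (w 1)) ?_
        (by simp (maxDischargeDepth := 50))
      exact Dfn.ren hG (m := n + 5)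
        (Fin.cases 1 (Fin.cases 0 (Fin.cases 2 fun i => i.succ.succ.succ.succ.succ)))
    exact h2
  exact Dfn.eq (by simp (maxDischargeDepth := 50)) h1

theorem orec_unique {G : M → M → M} {K L f g : M} (hK : SigB.Ord K) (hL : SigB.Ord L)
    (hf : Fn f K) (hfr : ∀ x, x ∈ K → ap f x = G x (rs f x)) (hg : Fn g L)
    (hgr : ∀ x, x ∈ L → ap g x = G x (rs g x)) : ∀ x, x ∈ K → x ∈ L → ap f x = ap g x := by
  refine hK.ind (P := fun x => x ∈ L → ap f x = ap g x) (by simp (maxDischargeDepth := 50)) ?_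
  intro x hx ih hxL
  rw [hfr x hx, hgr x hxL]
  congr 1
  exact rs_congr hf hg (hK.sb hx) (hL.sb hxL) fun y hy => ih y hy (hL.trans hy hxL)

theorem orec_eq_ap {G : M → M → M} {K f α : M} (hK : SigB.Ord K) (hf : Fn f K)
    (hfr : ∀ x, x ∈ K → ap f x = G x (rs f x)) (hα : α ∈ K) : orec G α = ap f α := by
  have hOα : SigB.Ord α := hK.mem hα
  have hsub : Sb (sc α) K := (Ord.sc_sb_iff hK).2 hα
  have hres : Fn (rs f (sc α)) (sc α) := fn_rs hf hsub
  have hresr : ∀ x, x ∈ sc α → ap (rs f (sc α)) x = G x (rs (rs f (sc α)) x) := by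
    intro x hx
    rw [ap_rs hf hsub hx, hfr x (hsub x hx)]
    congr 1
    exact rs_congr hf hres (hK.sb (hsub x hx)) ((ord_sc hOα).sb hx) fun y hy => by
      rw [ap_rs hf hsub ((ord_sc hOα).trans hy hx)]
  have h1 : ∀ z, z ∈ ap f α ↔ ∃ f, Fn f (sc α) ∧ (∀ x, x ∈ sc α → ap f x = G x (rs f x)) ∧
      z ∈ ap f α := by
    intro z
    constructor
    · intro hz
      exact ⟨rs f (sc α), hres, hresr, by rwa [ap_rs hf hsub (mem_sc_self α)]⟩
    · rintro ⟨g, hg, hgr, hz⟩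
      rwa [orec_unique hK (ord_sc hOα) hf hfr hg hgr α hα (mem_sc_self α)]
  exact ext' fun z => by rw [h1 z]; exact mem_cp ⟨ap f α, h1⟩

/-- The recursion equation. -/
theorem orec_eq {G : M → M → M} (hG : DT (fun w : Fin 2 → M => G (w 0) (w 1))) {α : M}
    (hα : SigB.Ord α) : orec G α = G α (lam α (orec G)) := by
  have hG' : DT (fun w : Fin 3 → M => G (w 1) (w 0)) := dt2 hG (DT.var 1) (DT.var 0)
  have hd : DT (fun w : Fin 1 → M => orec G (w 0)) :=
    dt_orec (G := fun _ => G) hG' (DT.var 0)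
  obtain ⟨f, hf, hfr⟩ := ord_recursion (ord_sc hα) hG
  rw [orec_eq_ap (ord_sc hα) hf hfr (mem_sc_self α), hfr α (mem_sc_self α)]
  congr 1
  have hsub : Sb α (sc α) := (ord_sc hα).sb (mem_sc_self α)
  refine (fn_rs hf hsub).ext (fn_lam hd) fun x hx => ?_
  rw [ap_rs hf hsub hx, ap_lam hd hx, orec_eq_ap (ord_sc hα) hf hfr (hsub x hx)]

/-! ### The cumulative hierarchy -/

/-- The level `V_α` of the cumulative hierarchy. -/
noncomputable def VV (α : M) : M := orec (fun x h => sU (im x fun y => pw (ap h y))) α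

theorem VV.dtG : DT (fun w : Fin 2 → M => sU (im (w 0) fun y => pw (ap (w 1) y))) := by
  simp (maxDischargeDepth := 50)

theorem VV.dt : DT (fun w : Fin 1 → M => VV (w 0)) := by
  unfold VV
  refine dt_orec (G := fun _ x h => sU (im x fun y => pw (ap h y))) ?_ (DT.var 0)
  simp (maxDischargeDepth := 50)

@[simp] theorem dt_VV {n : ℕ} {s : (Fin n → M) → M} (hs : DT s) :
    DT (fun v => VV (s v)) := dt1 VV.dt hs

theorem mem_VV {α x : M} (hα : SigB.Ord α) : x ∈ VV α ↔ ∃ β, β ∈ α ∧ Sb x (VV β) := by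
  have hd : DT (fun w : Fin 1 → M => VV (w 0)) := VV.dt
  have h : VV α = sU (im α fun y => pw (ap (lam α VV) y)) := by
    unfold VV
    exact orec_eq (G := fun x h => sU (im x fun y => pw (ap h y))) VV.dtG hα
  rw [h, mem_sU]
  constructor
  · rintro ⟨y, hy, hxy⟩
    obtain ⟨β, hβ, rfl⟩ := (mem_im (by simp (maxDischargeDepth := 50))).1 hy
    rw [ap_lam hd hβ, mem_pw] at hxy
    exact ⟨β, hβ, hxy⟩
  · rintro ⟨β, hβ, hx⟩
    refine ⟨_, (mem_im (by simp (maxDischargeDepth := 50))).2 ⟨β, hβ, rfl⟩, ?_⟩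
    rw [ap_lam hd hβ, mem_pw]
    exact hx

theorem VV_mono {α β : M} (hα : SigB.Ord α) (hβ : SigB.Ord β) (h : Sb α β) : Sb (VV α) (VV β) := by
  intro x hx
  obtain ⟨γ, hγ, hx⟩ := (mem_VV hα).1 hx
  exact (mem_VV hβ).2 ⟨γ, h γ hγ, hx⟩

theorem VV_tr {α : M} (hα : SigB.Ord α) : Tr (VV α) := by
  refine Ord.indAll (P := fun α => Tr (VV α)) (by simp (maxDischargeDepth := 50)) ?_ hα
  intro α hα ih x hx y hy
  obtain ⟨β, hβ, hx⟩ := (mem_VV hα).1 hx
  obtain ⟨γ, hγ, hy'⟩ := (mem_VV (hα.mem hβ)).1 (hx y hy)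
  exact (mem_VV hα).2 ⟨γ, hα.trans hγ hβ, hy'⟩

theorem VV_mem_of_mem {α x y : M} (hα : SigB.Ord α) (hx : x ∈ VV α) (hy : y ∈ x) : y ∈ VV α :=
  VV_tr hα x hx y hy

/-- The least ordinal with a property. -/
noncomputable def mu (P : M → Prop) : M :=
  cp fun z => ∃ α, SigB.Ord α ∧ P α ∧ (∀ β, β ∈ α → ¬ P β) ∧ z ∈ α

theorem mu_spec {P : M → Prop} (hP : Dfn (fun w : Fin 1 → M => P (w 0)))
    (h : ∃ α : M, SigB.Ord α ∧ P α) : SigB.Ord (mu P) ∧ P (mu P) ∧ ∀ β, β ∈ mu P → ¬ P β := by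
  obtain ⟨α₀, hα₀, h₀⟩ := h
  obtain ⟨α, hα, hPα, hmin⟩ := Ord.exists_least hP hα₀ h₀
  have h1 : ∀ z, z ∈ α ↔ ∃ α, SigB.Ord α ∧ P α ∧ (∀ β, β ∈ α → ¬ P β) ∧ z ∈ α := by
    intro z
    constructor
    · intro hz
      exact ⟨α, hα, hPα, hmin, hz⟩
    · rintro ⟨β, hβ, hPβ, hminβ, hz⟩
      rcases hα.tri hβ with h2 | h2 | h2
      · exact (hminβ α h2 hPα).elim
      · rwa [h2]
      · exact (hmin β h2 hPβ).elim
  have h2 : mu P = α := ext' fun z => by rw [h1 z]; exact mem_cp ⟨α, h1⟩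
  rw [h2]
  exact ⟨hα, hPα, hmin⟩

@[simp] theorem dt_mu {n : ℕ} {P : (Fin n → M) → M → Prop}
    (hP : Dfn (fun w : Fin (n + 1) → M => P (fun i => w i.succ) (w 0))) :
    DT (fun v => mu (P v)) := by
  refine dt_cp (P := fun v z => ∃ α, SigB.Ord α ∧ P v α ∧ (∀ β, β ∈ α → ¬ P v β) ∧ z ∈ α) ?_
  refine Dfn.ex (P := fun (w : Fin (n + 1) → M) α => SigB.Ord α ∧ P (fun i => w i.succ) α ∧
    (∀ β, β ∈ α → ¬ P (fun i => w i.succ) β) ∧ w 0 ∈ α) ?_
  refine Dfn.and (by simp) (Dfn.and ?_ (Dfn.and ?_ (by simp)))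
  · exact hP.ren (m := n + 2) (Fin.cases 0 fun i => i.succ.succ)
  · refine Dfn.all (P := fun (w : Fin (n + 2) → M) β => β ∈ w 0 →
      ¬ P (fun i => w i.succ.succ) β) (Dfn.imp (by simp) (Dfn.not ?_))
    exact hP.ren (m := n + 3) (Fin.cases 0 fun i => i.succ.succ.succ)

/-- A definable function from a set to the ordinals is bounded. -/
theorem exists_sup {a : M} {F : M → M} (hF : DT (fun w : Fin 1 → M => F (w 0)))
    (h : ∀ x, x ∈ a → SigB.Ord (F x)) : ∃ β : M, SigB.Ord β ∧ ∀ x, x ∈ a → F x ∈ β := by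
  have h1 : SigB.Ord (sU (im a F)) := ord_sU fun y hy => by
    obtain ⟨x, hx, rfl⟩ := (mem_im hF).1 hy
    exact h x hx
  refine ⟨sc (sU (im a F)), ord_sc h1, fun x hx => ?_⟩
  rw [Ord.mem_sc_iff (h x hx) h1]
  exact fun z hz => mem_sU.2 ⟨F x, (mem_im hF).2 ⟨x, hx, rfl⟩, hz⟩

/-- Every set belongs to the cumulative hierarchy. -/
theorem exists_VV (x : M) : ∃ α : M, SigB.Ord α ∧ x ∈ VV α := by
  refine mem_ind (Q := fun x => ∃ α, SigB.Ord α ∧ x ∈ VV α) (by simp (maxDischargeDepth := 50)) ?_ x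
  intro x ih
  have hd : DT (fun w : Fin 1 → M => mu fun α => w 0 ∈ VV α) := by
    refine dt_mu (P := fun (v : Fin 1 → M) α => v 0 ∈ VV α) ?_
    simp (maxDischargeDepth := 50)
  have hd' : ∀ y : M, Dfn (fun w : Fin 1 → M => y ∈ VV (w 0)) := fun y => by
    simp (maxDischargeDepth := 50)
  obtain ⟨β, hβ, h⟩ := exists_sup (a := x) hd fun y hy => (mu_spec (hd' y) (ih y hy)).1
  refine ⟨sc β, ord_sc hβ, (mem_VV (ord_sc hβ)).2 ⟨β, mem_sc_self β, fun y hy => ?_⟩⟩
  obtain ⟨h1, h2, -⟩ := mu_spec (hd' y) (ih y hy)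
  exact VV_mono h1 hβ (hβ.sb (h y hy)) y h2

/-- The collection scheme. -/
theorem collection {R : M → M → Prop} (hR : Dfn (fun w : Fin 2 → M => R (w 0) (w 1))) (a : M) :
    ∃ b : M, ∀ x, x ∈ a → (∃ y, R x y) → ∃ y, y ∈ b ∧ R x y := by
  have hR' : ∀ {n : ℕ} {s t : (Fin n → M) → M}, DT s → DT t → Dfn fun v => R (s v) (t v) :=
    fun hs ht => dfn2 hR hs ht
  have hd : DT (fun w : Fin 1 → M => mu fun α => ∃ y, y ∈ VV α ∧ R (w 0) y) := by
    refine dt_mu (P := fun (v : Fin 1 → M) α => ∃ y, y ∈ VV α ∧ R (v 0) y) ?_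
    simp (maxDischargeDepth := 50) [hR']
  have hd' : ∀ x : M, Dfn (fun w : Fin 1 → M => ∃ y, y ∈ VV (w 0) ∧ R x y) := fun y => by
    simp (maxDischargeDepth := 50) [hR']
  have hex : ∀ x, (∃ y, R x y) → ∃ α : M, SigB.Ord α ∧ ∃ y, y ∈ VV α ∧ R x y := by
    rintro x ⟨y, hy⟩
    obtain ⟨α, hα, h⟩ := exists_VV y
    exact ⟨α, hα, y, h, hy⟩
  have hmem : ∀ x, x ∈ sp a (fun x => ∃ y, R x y) ↔ x ∈ a ∧ ∃ y, R x y := fun x =>
    mem_sp (by simp (maxDischargeDepth := 50) [hR'])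
  obtain ⟨β, hβ, h⟩ := exists_sup (a := sp a fun x => ∃ y, R x y) hd fun x hx =>
    (mu_spec (hd' x) (hex x ((hmem x).1 hx).2)).1
  refine ⟨VV β, fun x hx hy => ?_⟩
  obtain ⟨h1, ⟨y, hy1, hy2⟩, -⟩ := mu_spec (hd' x) (hex x hy)
  exact ⟨y, VV_mono h1 hβ (hβ.sb (h x ((hmem x).2 ⟨hx, hy⟩))) y hy1, hy2⟩

/-- The ordinals do not form a set. -/
theorem no_set_ord (a : M) : ∃ α : M, SigB.Ord α ∧ α ∉ a := by
  by_contra h
  push Not at h
  have hd : Dfn (fun w : Fin 1 → M => SigB.Ord (w 0)) := by simp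
  have h1 : ∀ z, z ∈ sp a SigB.Ord ↔ SigB.Ord z := fun z => by
    rw [mem_sp hd]; exact ⟨fun h => h.2, fun hz => ⟨h z hz, hz⟩⟩
  have h2 : SigB.Ord (sp a SigB.Ord) := ord_mk (fun y hy z hz => (h1 z).2 (((h1 y).1 hy).mem hz))
    fun y hy => (h1 y).1 hy
  exact not_mem_self _ ((h1 _).2 h2)

/-! ### The well-ordering theorem -/

/-- The function `f` is a bijection from `a` onto `b`. -/
def Bij (f a b : M) : Prop :=
  f ∈ fs a b ∧ (∀ x, x ∈ a → ∀ y, y ∈ a → ap f x = ap f y → x = y) ∧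
    ∀ z, z ∈ b → ∃ x, x ∈ a ∧ ap f x = z

theorem Bij.dfn : Dfn (fun w : Fin 3 → M => Bij (w 0) (w 1) (w 2)) := by
  unfold Bij; simp (maxDischargeDepth := 50)

@[simp] theorem dfn_Bij {n : ℕ} {s t r : (Fin n → M) → M} (hs : DT s) (ht : DT t) (hr : DT r) :
    Dfn (fun v => Bij (s v) (t v) (r v)) := dfn3 Bij.dfn hs ht hr

/-- Every set is the image of an ordinal under a bijection. -/
theorem exists_bij_ord (A : M) : ∃ κ f, SigB.Ord κ ∧ Bij f κ A := by
  classical
  -- a choice function on the nonempty subsets of `A`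
  obtain ⟨c, hc, hcv⟩ := choice' (a := df (pw A) (pr SigB.em SigB.em)) (b := A) (P := fun x y => y ∈ x)
    (by simp (maxDischargeDepth := 50)) (by
      intro x hx
      rw [mem_df, mem_pw, mem_pr] at hx
      by_contra h
      push Not at h
      refine hx.2 (Or.inl (ext' fun z => ⟨fun hz => ?_, fun hz => (not_mem_em z hz).elim⟩))
      exact (h z (hx.1 z hz) hz).elim)
  have hcv' : ∀ S, Sb S A → S ≠ SigB.em → ap c S ∈ S := by
    intro S hS hne
    refine hcv S ?_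
    rw [mem_df, mem_pw, mem_pr]
    exact ⟨hS, by rintro (h | h) <;> exact hne h⟩
  -- the enumeration
  let G : M → M → M := fun x h =>
    if df A (im x (ap h)) = SigB.em then A else ap c (df A (im x (ap h)))
  have hG : DT (fun w : Fin 2 → M => G (w 0) (w 1)) := by
    have h0 : DT (fun w : Fin 2 → M => df A (im (w 0) (ap (w 1)))) := by
      refine dt_df (DT.const A) (dt_im (F := fun (w : Fin 2 → M) y => ap (w 1) y) (DT.var 0) ?_)
      exact dt_ap (DT.var 2) (DT.var 0)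
    exact DT.ite (P := fun w : Fin 2 → M => df A (im (w 0) (ap (w 1))) = SigB.em)
      (Dfn.eq h0 (DT.const _)) (DT.const A) (dt_ap (DT.const c) h0)
  let g : M → M := orec G
  have hg : DT (fun w : Fin 1 → M => g (w 0)) :=
    dt_orec (G := fun _ => G) (dt2 hG (DT.var 1) (DT.var 0)) (DT.var 0)
  have hg' : ∀ {n : ℕ} {s : (Fin n → M) → M}, DT s → DT fun v => g (s v) :=
    fun hs => dt1 hg hs
  have him : ∀ α, im α (ap (lam α g)) = im α g := by
    intro α
    refine ext' fun z => ?_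
    rw [mem_im (by simp (maxDischargeDepth := 50)), mem_im hg]
    constructor
    · rintro ⟨x, hx, rfl⟩
      exact ⟨x, hx, ap_lam hg hx⟩
    · rintro ⟨x, hx, rfl⟩
      exact ⟨x, hx, (ap_lam hg hx).symm⟩
  have hgr : ∀ α, SigB.Ord α → g α = if df A (im α g) = SigB.em then A else ap c (df A (im α g)) := by
    intro α hα
    have h1 := orec_eq hG hα
    change g α = if df A (im α (ap (lam α g))) = SigB.em then A else
      ap c (df A (im α (ap (lam α g)))) at h1
    rw [him α] at h1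
    exact h1
  have hmemdf : ∀ α z, z ∈ df A (im α g) ↔ z ∈ A ∧ ∀ x, x ∈ α → z ≠ g x := by
    intro α z
    rw [mem_df, mem_im hg]
    push Not
    rfl
  -- the values in `A` are different
  have hval : ∀ α, SigB.Ord α → g α ≠ A → g α ∈ A ∧ ∀ x, x ∈ α → g α ≠ g x := by
    intro α hα hne
    by_cases h1 : df A (im α g) = SigB.em
    · rw [hgr α hα, if_pos h1] at hne
      exact (hne rfl).elim
    · have h2 := hcv' (df A (im α g)) (fun z hz => ((hmemdf α z).1 hz).1) h1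
      have h3 : g α = ap c (df A (im α g)) := by rw [hgr α hα, if_neg h1]
      rw [← h3, hmemdf] at h2
      exact h2
  -- the value `A` is attained
  have hex : ∃ α, SigB.Ord α ∧ g α = A := by
    by_contra hno
    push Not at hno
    let inv : M → M := fun z => mu fun α => g α = z
    have hinv : DT (fun w : Fin 1 → M => inv (w 0)) := by
      refine dt_mu (P := fun (v : Fin 1 → M) α => g α = v 0) ?_
      simp (maxDischargeDepth := 50) [hg']
    obtain ⟨α, hα, hnot⟩ := no_set_ord (im A inv)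
    refine hnot ((mem_im hinv).2 ⟨g α, (hval α hα (hno α hα)).1, ?_⟩)
    obtain ⟨h1, h2, h3⟩ := mu_spec (P := fun β => g β = g α) (by
      simp (maxDischargeDepth := 50) [hg']) ⟨α, hα, rfl⟩
    show α = mu fun β => g β = g α
    rcases hα.tri h1 with h4 | h4 | h4
    · exact (h3 α h4 rfl).elim
    · exact h4
    · exact ((hval α hα (hno α hα)).2 _ h4 h2.symm).elim
  obtain ⟨α₀, hα₀, h₀⟩ := hex
  obtain ⟨κ, hκ, hκA, hmin⟩ := Ord.exists_least (P := fun α => g α = A)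
    (by simp (maxDischargeDepth := 50) [hg']) hα₀ h₀
  have hvalκ : ∀ x, x ∈ κ → g x ∈ A ∧ ∀ y, y ∈ x → g x ≠ g y := fun x hx =>
    hval x (hκ.mem hx) (hmin x hx)
  refine ⟨κ, lam κ g, hκ, lam_mem_fs hg fun x hx => (hvalκ x hx).1, ?_, ?_⟩
  · intro x hx y hy hxy
    rw [ap_lam hg hx, ap_lam hg hy] at hxy
    rcases (hκ.mem hx).tri (hκ.mem hy) with h | h | h
    · exact ((hvalκ y hy).2 x h hxy.symm).elim
    · exact h
    · exact ((hvalκ x hx).2 y h hxy).elim
  · intro z hz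
    by_contra hno
    push Not at hno
    have h1 : df A (im κ g) ≠ SigB.em := by
      intro h
      have : z ∈ df A (im κ g) := (hmemdf κ z).2 ⟨hz, fun x hx h => hno x hx (by
        rw [ap_lam hg hx, h])⟩
      rw [h] at this
      exact not_mem_em z this
    have h2 := hcv' (df A (im κ g)) (fun z hz => ((hmemdf κ z).1 hz).1) h1
    have h3 : g κ = ap c (df A (im κ g)) := by rw [hgr κ hκ, if_neg h1]
    rw [← h3, hκA, hmemdf] at h2
    exact not_mem_self A h2.1

end Pool.Agent.Frc
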