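import Pool.Agent.Frc.Atom

/-!
The forcing relation for all formulas, generic filters, the generic extension, and the forcing
theorem.
-/

universe u

set_option linter.unusedSectionVars false

namespace Pool.Agent.Frc

open Pool.Agent.SigB

variable {M : Type u} [Membership M M] [IsZFC M]

/-- The forcing relation `p ⊩ φ(v)`. -/
def Fc (P le : M) : ∀ {n : ℕ}, Fml M n → M → (Fin n → M) → Prop
  | _, .mem s t, p, v => MemF P le (Sum.elim v id s) (Sum.elim v id t) p
  | _, .eq s t, p, v => EqF P le (Sum.elim v id s) (Sum.elim v id t) p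
  | _, .neg φ, p, v => p ∈ P ∧ ∀ q, op q p ∈ le → ¬ Fc P le φ q v
  | _, .and φ ψ, p, v => Fc P le φ p v ∧ Fc P le ψ p v
  | _, .ex φ, p, v => p ∈ P ∧
      ∀ q, op q p ∈ le → ∃ s, op s q ∈ le ∧ ∃ x, Fc P le φ s (Fin.cons x v)

theorem dt_elim {n : ℕ} (s : Fin n ⊕ M) :
    DT (fun w : Fin (n + 1) → M => Sum.elim (fun i => w i.succ) id s) := by
  rcases s with i | a
  · exact DT.var i.succ
  · exact DT.const a

theorem frc_dfn (P le : M) : ∀ {n : ℕ} (φ : Fml M n),
    Dfn (fun w : Fin (n + 1) → M => Fc P le φ (w 0) (fun i => w i.succ))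
  | _, .mem s t => dfn_MemF (DT.const P) (DT.const le) (dt_elim s) (dt_elim t) (DT.var 0)
  | _, .eq s t => dfn_EqF (DT.const P) (DT.const le) (dt_elim s) (dt_elim t) (DT.var 0)
  | n, .neg φ => by
    refine Dfn.and (by simp) ?_
    refine Dfn.all (P := fun (w : Fin (n + 1) → M) q =>
      op q (w 0) ∈ le → ¬ Fc P le φ q (fun i => w i.succ)) ?_
    refine Dfn.imp (by simp (maxDischargeDepth := 50)) (Dfn.not ?_)
    exact (frc_dfn P le φ).ren (m := n + 2) (Fin.cases 0 fun i => i.succ.succ)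
  | _, .and φ ψ => (frc_dfn P le φ).and (frc_dfn P le ψ)
  | n, .ex φ => by
    refine Dfn.and (by simp) ?_
    refine Dfn.all (P := fun (w : Fin (n + 1) → M) q => op q (w 0) ∈ le →
      ∃ s, op s q ∈ le ∧ ∃ x, Fc P le φ s (Fin.cons x fun i => w i.succ)) ?_
    refine Dfn.imp (by simp (maxDischargeDepth := 50)) ?_
    refine Dfn.ex (P := fun (w : Fin (n + 2) → M) s => op s (w 0) ∈ le ∧
      ∃ x, Fc P le φ s (Fin.cons x fun i => w i.succ.succ)) ?_
    refine Dfn.and (by simp (maxDischargeDepth := 50)) ?_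
    refine Dfn.ex (P := fun (w : Fin (n + 3) → M) x =>
      Fc P le φ (w 0) (Fin.cons x fun i => w i.succ.succ.succ)) ?_
    have h := (frc_dfn P le φ).ren (m := n + 4)
      (Fin.cases 1 (Fin.cases 0 fun i => i.succ.succ.succ.succ))
    refine h.congr fun w => ?_
    have : (fun i : Fin (n + 1) => w ((Fin.cases 1 (Fin.cases 0 fun i => i.succ.succ.succ.succ) :
        Fin (n + 2) → Fin (n + 4)) i.succ)) =
        Fin.cons (w 0) fun i => w i.succ.succ.succ.succ := by
      funext i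
      refine Fin.cases ?_ (fun i => ?_) i <;> first | rfl | simp
    rw [this]
    rfl

section

variable {P le one : M} (hP : PO P le one)

theorem frc_mem : ∀ {n : ℕ} (φ : Fml M n) {p : M} {v : Fin n → M}, Fc P le φ p v → p ∈ P
  | _, .mem _ _, _, _, h => h.1
  | _, .eq _ _, _, _, h => h.1
  | _, .neg _, _, _, h => h.1
  | _, .and φ _, _, _, h => frc_mem φ h.1
  | _, .ex _, _, _, h => h.1

include hP

theorem frc_mono : ∀ {n : ℕ} (φ : Fml M n) {p q : M} {v : Fin n → M}, Fc P le φ p v →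
    op q p ∈ le → Fc P le φ q v
  | _, .mem _ _, _, _, _, h, hq => MemF.mono hP h hq
  | _, .eq _ _, _, _, _, h, hq => EqF.mono hP h hq
  | _, .neg _, _, _, _, h, hq => ⟨(hP.sub _ _ hq).1, fun r hr => h.2 r (hP.trans _ _ _ hr hq)⟩
  | _, .and φ ψ, _, _, _, h, hq => ⟨frc_mono φ h.1 hq, frc_mono ψ h.2 hq⟩
  | _, .ex _, _, _, _, h, hq => ⟨(hP.sub _ _ hq).1, fun r hr => h.2 r (hP.trans _ _ _ hr hq)⟩

theorem frc_dense : ∀ {n : ℕ} (φ : Fml M n) {p : M} {v : Fin n → M}, p ∈ P →
    (∀ q, op q p ∈ le → ∃ s, op s q ∈ le ∧ Fc P le φ s v) → Fc P le φ p v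
  | _, .mem _ _, _, _, hp, h => memF_of_dense hP hp h
  | _, .eq _ _, _, _, hp, h => eqF_of_dense hP hp h
  | _, .neg φ, _, _, hp, h => ⟨hp, fun q hq hq' => by
      obtain ⟨s, hs, hs'⟩ := h q hq
      exact hs'.2 s (hP.refl _ hs'.1) (frc_mono hP φ hq' hs)⟩
  | _, .and φ ψ, _, _, hp, h =>
    ⟨frc_dense φ hp fun q hq => (h q hq).imp fun _ hs => ⟨hs.1, hs.2.1⟩,
      frc_dense ψ hp fun q hq => (h q hq).imp fun _ hs => ⟨hs.1, hs.2.2⟩⟩
  | _, .ex _, _, _, hp, h => ⟨hp, fun q hq => by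
      obtain ⟨s, hs, hs'⟩ := h q hq
      obtain ⟨r, hr, x, hx⟩ := hs'.2 s (hP.refl _ hs'.1)
      exact ⟨r, hP.trans _ _ _ hr hs, x, hx⟩⟩

end

/-! ### Generic filters -/

/-- `G` is a filter on `P` which meets all dense sets in the model. -/
structure Gen (P le one : M) (G : M → Prop) : Prop where
  mem : ∀ p, G p → p ∈ P
  one : G one
  up : ∀ p q, G p → op p q ∈ le → G q
  dir : ∀ p q, G p → G q → ∃ r, G r ∧ op r p ∈ le ∧ op r q ∈ le
  gen : ∀ D : M, (∀ p, p ∈ P → ∃ q, op q p ∈ le ∧ q ∈ D) → ∃ p, G p ∧ p ∈ D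

/-- A generic filter exists over a countable model, below any condition. -/
theorem exists_gen [Countable M] {P le one : M} (hP : PO P le one) {p₀ : M} (hp₀ : p₀ ∈ P) :
    ∃ G, Gen P le one G ∧ G p₀ := by
  classical
  have : Nonempty M := ⟨P⟩
  obtain ⟨e, he⟩ := exists_surjective_nat M
  -- a descending sequence which meets the dense sets
  let next : {p : M // p ∈ P} → M → {p : M // p ∈ P} := fun p D =>
    if h : ∃ q, op q p.1 ∈ le ∧ q ∈ D then ⟨h.choose, (hP.sub _ _ h.choose_spec.1).1⟩ else p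
  have hnext : ∀ p D, op (next p D).1 p.1 ∈ le := by
    intro p D
    by_cases h : ∃ q, op q p.1 ∈ le ∧ q ∈ D
    · simp only [next, dif_pos h]; exact h.choose_spec.1
    · simp only [next, dif_neg h]; exact hP.refl _ p.2
  have hnext' : ∀ p D, (∃ q, op q p.1 ∈ le ∧ q ∈ D) → (next p D).1 ∈ D := by
    intro p D h
    simp only [next, dif_pos h]; exact h.choose_spec.2
  let s : ℕ → {p : M // p ∈ P} := fun n => Nat.rec ⟨p₀, hp₀⟩ (fun k p => next p (e k)) n
  have hs0 : s 0 = ⟨p₀, hp₀⟩ := rfl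
  have hs1 : ∀ k, s (k + 1) = next (s k) (e k) := fun k => rfl
  have hmono : ∀ m k, op (s (m + k)).1 (s m).1 ∈ le := by
    intro m k
    induction k with
    | zero => exact hP.refl _ (s m).2
    | succ k ih =>
      have : s (m + (k + 1)) = next (s (m + k)) (e (m + k)) := hs1 (m + k)
      rw [this]
      exact hP.trans _ _ _ (hnext _ _) ih
  have hle : ∀ {m k : ℕ}, m ≤ k → op (s k).1 (s m).1 ∈ le := by
    intro m k h
    obtain ⟨j, rfl⟩ := Nat.exists_eq_add_of_le h
    exact hmono m j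
  refine ⟨fun q => ∃ n, op (s n).1 q ∈ le, ⟨?_, ?_, ?_, ?_, ?_⟩, 0, hP.refl _ hp₀⟩
  · rintro p ⟨n, hn⟩
    exact (hP.sub _ _ hn).2
  · exact ⟨0, hP.top _ (s 0).2⟩
  · rintro p q ⟨n, hn⟩ h
    exact ⟨n, hP.trans _ _ _ hn h⟩
  · rintro p q ⟨n, hn⟩ ⟨m, hm⟩
    refine ⟨(s (n + m)).1, ⟨n + m, hP.refl _ (s (n + m)).2⟩, ?_, ?_⟩
    · exact hP.trans _ _ _ (hle (Nat.le_add_right n m)) hn
    · exact hP.trans _ _ _ (hle (Nat.le_add_left m n)) hm
  · intro D hD
    obtain ⟨k, hk⟩ := he D
    have h1 := hnext' (s k) D (hD _ (s k).2)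
    rw [← hk, ← hs1 k] at h1
    exact ⟨(s (k + 1)).1, ⟨k + 1, hP.refl _ (s (k + 1)).2⟩, hk ▸ h1⟩

section

variable {P le one : M} {G : M → Prop}

/-- A definable set dense below an element of the generic filter meets the filter. -/
theorem Gen.below (hP : PO P le one) (hG : Gen P le one G) {Q : M → Prop}
    (hQ : Dfn (fun w : Fin 1 → M => Q (w 0))) {p : M} (hp : G p)
    (h : ∀ q, op q p ∈ le → ∃ s, op s q ∈ le ∧ Q s) : ∃ s, G s ∧ Q s := by
  have hQ' : ∀ {n : ℕ} {s : (Fin n → M) → M}, DT s → Dfn fun v => Q (s v) := fun hs => dfn1 hQ hs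
  -- conditions incompatible with `p`, or in `Q`
  obtain ⟨s, hs, hs'⟩ := hG.gen (sp P fun s => Q s ∨ ∀ r, op r s ∈ le → op r p ∉ le) (by
    intro q hq
    by_cases h1 : ∀ r, op r q ∈ le → op r p ∉ le
    · exact ⟨q, hP.refl _ hq, (mem_sp (by simp (maxDischargeDepth := 50) [hQ'])).2 ⟨hq, Or.inr h1⟩⟩
    · push Not at h1
      obtain ⟨r, hr, hrp⟩ := h1
      obtain ⟨s, hs, hs'⟩ := h r hrp
      exact ⟨s, hP.trans _ _ _ hs hr, (mem_sp (by simp (maxDischargeDepth := 50) [hQ'])).2
        ⟨(hP.sub _ _ hs).1, Or.inl hs'⟩⟩)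
  rw [mem_sp (by simp (maxDischargeDepth := 50) [hQ'])] at hs'
  rcases hs'.2 with h1 | h1
  · exact ⟨s, hs, h1⟩
  · obtain ⟨r, -, hr, hr'⟩ := hG.dir s p hs hp
    exact (h1 r hr hr').elim

end

/-! ### Change of the parameters of a formula -/

/-- Apply `f` to the parameters. -/
def mapP {A B : Type u} (f : A → B) : ∀ {n : ℕ}, Fml A n → Fml B n
  | _, .mem s t => .mem (Sum.map id f s) (Sum.map id f t)
  | _, .eq s t => .eq (Sum.map id f s) (Sum.map id f t)
  | _, .neg φ => .neg (mapP f φ)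
  | _, .and φ ψ => .and (mapP f φ) (mapP f ψ)
  | _, .ex φ => .ex (mapP f φ)

theorem exists_map_sum {A B : Type u} {f : A → B} (hf : Function.Surjective f) {n : ℕ}
    (s : Fin n ⊕ B) : ∃ s' : Fin n ⊕ A, Sum.map id f s' = s := by
  rcases s with i | b
  · exact ⟨.inl i, rfl⟩
  · obtain ⟨a, rfl⟩ := hf b
    exact ⟨.inr a, rfl⟩

theorem exists_mapP {A B : Type u} {f : A → B} (hf : Function.Surjective f) :
    ∀ {n : ℕ} (ψ : Fml B n), ∃ φ : Fml A n, mapP f φ = ψ
  | _, .mem s t => by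
    obtain ⟨s', hs⟩ := exists_map_sum hf s
    obtain ⟨t', ht⟩ := exists_map_sum hf t
    exact ⟨.mem s' t', by simp [mapP, hs, ht]⟩
  | _, .eq s t => by
    obtain ⟨s', hs⟩ := exists_map_sum hf s
    obtain ⟨t', ht⟩ := exists_map_sum hf t
    exact ⟨.eq s' t', by simp [mapP, hs, ht]⟩
  | _, .neg ψ => by
    obtain ⟨φ, rfl⟩ := exists_mapP hf ψ
    exact ⟨.neg φ, rfl⟩
  | _, .and ψ ψ' => by
    obtain ⟨φ, rfl⟩ := exists_mapP hf ψ
    obtain ⟨φ', rfl⟩ := exists_mapP hf ψ'
    exact ⟨.and φ φ', rfl⟩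
  | _, .ex ψ => by
    obtain ⟨φ, rfl⟩ := exists_mapP hf ψ
    exact ⟨.ex φ, rfl⟩

theorem elim_mapP {A B : Type u} (f : A → B) {n : ℕ} (s : Fin n ⊕ A) (v : Fin n → A) :
    Sum.elim (fun i => f (v i)) id (Sum.map id f s) = f (Sum.elim v id s) := by
  rcases s with i | a <;> rfl

/-! ### The generic extension -/

/-- `N` is the extension of `M` by the generic filter `G`, and `val` is the evaluation of names. -/
structure Ext (P le one : M) (G : M → Prop) {N : Type u} [Membership N N] (val : M → N) :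
    Prop where
  po : PO P le one
  gen : Gen P le one G
  surj : Function.Surjective val
  ext : ∀ x y : N, (∀ z, z ∈ x ↔ z ∈ y) → x = y
  eq_iff : ∀ x y, val x = val y ↔ ∃ p, G p ∧ EqF P le x y p
  mem_iff : ∀ x y, val x ∈ val y ↔ ∃ p, G p ∧ MemF P le x y p

/-- The extension exists. -/
theorem exists_ext {P le one : M} (hP : PO P le one) {G : M → Prop} (hG : Gen P le one G) :
    ∃ (N : Type u) (_ : Membership N N) (val : M → N), Ext P le one G val := by
  have hrefl : ∀ x, ∃ p, G p ∧ EqF P le x x p := fun x =>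
    ⟨one, hG.one, eqF_refl hP x one hP.one_mem⟩
  have hsymm : ∀ x y, (∃ p, G p ∧ EqF P le x y p) → ∃ p, G p ∧ EqF P le y x p := by
    rintro x y ⟨p, hp, h⟩
    exact ⟨p, hp, h.symm hP⟩
  have htrans : ∀ x y z, (∃ p, G p ∧ EqF P le x y p) → (∃ p, G p ∧ EqF P le y z p) →
      ∃ p, G p ∧ EqF P le x z p := by
    rintro x y z ⟨p, hp, h⟩ ⟨q, hq, h'⟩
    obtain ⟨r, hr, hrp, hrq⟩ := hG.dir p q hp hq
    exact ⟨r, hr, (h.mono hP hrp).trans hP (h'.mono hP hrq)⟩
  have hl : ∀ x x' y, (∃ p, G p ∧ EqF P le x x' p) → (∃ p, G p ∧ MemF P le x y p) →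
      ∃ p, G p ∧ MemF P le x' y p := by
    rintro x x' y ⟨p, hp, h⟩ ⟨q, hq, h'⟩
    obtain ⟨r, hr, hrp, hrq⟩ := hG.dir p q hp hq
    exact ⟨r, hr, (h'.mono hP hrq).congr_left hP (h.mono hP hrp)⟩
  have hr : ∀ x y y', (∃ p, G p ∧ EqF P le y y' p) → (∃ p, G p ∧ MemF P le x y p) →
      ∃ p, G p ∧ MemF P le x y' p := by
    rintro x y y' ⟨p, hp, h⟩ ⟨q, hq, h'⟩
    obtain ⟨r, hr, hrp, hrq⟩ := hG.dir p q hp hq
    exact ⟨r, hr, (h'.mono hP hrq).congr_right hP (h.mono hP hrp)⟩
  let S : Setoid M := ⟨fun x y => ∃ p, G p ∧ EqF P le x y p,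
    ⟨hrefl, fun h => hsymm _ _ h, fun h h' => htrans _ _ _ h h'⟩⟩
  let N : Type u := Quotient S
  let inst : Membership N N := ⟨fun y x => Quotient.liftOn₂ x y
    (fun x y => ∃ p, G p ∧ MemF P le x y p) fun x y x' y' h h' =>
      propext ⟨fun h1 => hr _ _ _ h' (hl _ _ _ h h1),
        fun h1 => hr _ _ _ (hsymm _ _ h') (hl _ _ _ (hsymm _ _ h) h1)⟩⟩
  let val : M → N := fun x => Quotient.mk S x
  have heq : ∀ x y, val x = val y ↔ ∃ p, G p ∧ EqF P le x y p := fun x y => Quotient.eq (r := S)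
  have hmem : ∀ x y, val x ∈ val y ↔ ∃ p, G p ∧ MemF P le x y p := fun x y => Iff.rfl
  refine ⟨N, inst, val, hP, hG, Quotient.mk_surjective, ?_, heq, hmem⟩
  intro x y
  refine Quotient.inductionOn₂ x y fun x y h => ?_
  change ∀ z, z ∈ val x ↔ z ∈ val y at h
  refine (heq x y).2 ?_
  -- the conditions which decide that one of the names has an element not in the other one
  by_contra hno
  have hd : ∀ a b : M, Dfn (fun w : Fin 1 → M => ∃ z r, op z r ∈ a ∧ op (w 0) r ∈ le ∧
      ∀ q, op q (w 0) ∈ le → ¬ MemF P le z b q) := by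
    intro a b; simp (maxDischargeDepth := 50)
  have hno2 : ∀ a b : M, (∀ z, z ∈ val a ↔ z ∈ val b) → ∀ s, G s →
      ¬ ∃ z r, op z r ∈ a ∧ op s r ∈ le ∧ ∀ q, op q s ∈ le → ¬ MemF P le z b q := by
    rintro a b h s hs ⟨z, r, hz, hsr, hq⟩
    have h1 : val z ∈ val a := (hmem z a).2 ⟨s, hs, memF_of_mem hP hz hsr⟩
    obtain ⟨p, hp, hp'⟩ := (hmem z b).1 ((h _).1 h1)
    obtain ⟨t, -, hts, htp⟩ := hG.dir s p hs hp
    exact hq t hts (MemF.mono hP hp' htp)
  obtain ⟨s, hs, hs'⟩ := hG.below hP (p := one) (Q := fun s => EqF P le x y s ∨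
      (∃ z r, op z r ∈ x ∧ op s r ∈ le ∧ ∀ q, op q s ∈ le → ¬ MemF P le z y q) ∨
      (∃ z r, op z r ∈ y ∧ op s r ∈ le ∧ ∀ q, op q s ∈ le → ¬ MemF P le z x q))
    (Dfn.or (by simp (maxDischargeDepth := 50)) ((hd x y).or (hd y x))) hG.one (by
    intro q hq
    have hqP := (hP.sub _ _ hq).1
    by_cases h1 : EqF P le x y q
    · exact ⟨q, hP.refl _ hqP, Or.inl h1⟩
    · rw [eqF_iff_memF hP hqP, not_and_or] at h1
      rcases h1 with h1 | h1
      · push Not at h1
        obtain ⟨z, r, hz, s, hs, hsr, hn⟩ := h1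
        have h2 : ∃ t, op t s ∈ le ∧ ∀ q, op q t ∈ le → ¬ MemF P le z y q := by
          by_contra h3
          push Not at h3
          exact hn (memF_of_dense hP (hP.sub _ _ hs).1 h3)
        obtain ⟨t, hts, ht⟩ := h2
        exact ⟨t, hP.trans _ _ _ hts hs, Or.inr (Or.inl ⟨z, r, hz, hP.trans _ _ _ hts hsr, ht⟩)⟩
      · push Not at h1
        obtain ⟨z, r, hz, s, hs, hsr, hn⟩ := h1
        have h2 : ∃ t, op t s ∈ le ∧ ∀ q, op q t ∈ le → ¬ MemF P le z x q := by
          by_contra h3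
          push Not at h3
          exact hn (memF_of_dense hP (hP.sub _ _ hs).1 h3)
        obtain ⟨t, hts, ht⟩ := h2
        exact ⟨t, hP.trans _ _ _ hts hs, Or.inr (Or.inr ⟨z, r, hz, hP.trans _ _ _ hts hsr, ht⟩)⟩)
  rcases hs' with h1 | h1 | h1
  · exact hno ⟨s, hs, h1⟩
  · exact hno2 x y h s hs h1
  · exact hno2 y x (fun z => (h z).symm) s hs h1

section

variable {P le one : M} {G : M → Prop} {N : Type u} [Membership N N] {val : M → N}

/-- Elements of the value of a name. -/
theorem Ext.mem_val (hE : Ext P le one G val) {x : M} {z : N} :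
    z ∈ val x ↔ ∃ y p, op y p ∈ x ∧ G p ∧ z = val y := by
  have hP := hE.po
  have hG := hE.gen
  constructor
  · obtain ⟨y, rfl⟩ := hE.surj z
    intro h
    obtain ⟨p, hp, hp'⟩ := (hE.mem_iff y x).1 h
    obtain ⟨s, hs, w, t, hw, hst, hyw⟩ := hG.below hP (p := p)
      (Q := fun s => ∃ w t, op w t ∈ x ∧ op s t ∈ le ∧ EqF P le y w s)
      (by simp (maxDischargeDepth := 50)) hp hp'.2
    exact ⟨w, t, hw, hG.up _ _ hs hst, (hE.eq_iff _ _).2 ⟨s, hs, hyw⟩⟩
  · rintro ⟨y, p, h, hp, rfl⟩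
    exact (hE.mem_iff _ _).2 ⟨p, hp, memF_of_mem hP h (hP.refl _ (hG.mem _ hp))⟩

/-- The truth lemma. -/
theorem Ext.truth (hE : Ext P le one G val) : ∀ {n : ℕ} (φ : Fml M n) (v : Fin n → M),
    (mapP val φ).Sat (fun i => val (v i)) ↔ ∃ p, G p ∧ Fc P le φ p v
  | _, .mem s t, v => by
    show Sum.elim (fun i => val (v i)) id (Sum.map id val s) ∈
      Sum.elim (fun i => val (v i)) id (Sum.map id val t) ↔ _
    rw [elim_mapP, elim_mapP]
    exact hE.mem_iff _ _
  | _, .eq s t, v => by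
    show Sum.elim (fun i => val (v i)) id (Sum.map id val s) =
      Sum.elim (fun i => val (v i)) id (Sum.map id val t) ↔ _
    rw [elim_mapP, elim_mapP]
    exact hE.eq_iff _ _
  | _, .neg φ, v => by
    have hP := hE.po
    have hG := hE.gen
    show ¬ (mapP val φ).Sat _ ↔ _
    rw [Ext.truth hE φ v]
    constructor
    · intro h
      have hd1 : Dfn (fun w : Fin 1 → M => Fc P le φ (w 0) v) := by
        have := frc_dfn P le φ
        obtain ⟨ψ, hψ⟩ := this
        -- substitute the constants `v`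
        have key : ∀ k : ℕ, ∀ (R : M → (Fin k → M) → Prop),
            Dfn (fun w : Fin (k + 1) → M => R (w 0) (fun i => w i.succ)) → ∀ v : Fin k → M,
            Dfn (fun w : Fin 1 → M => R (w 0) v) := by
          intro k
          induction k with
          | zero =>
            intro R hR v
            refine hR.congr fun w => ?_
            have : (fun i : Fin 0 => w i.succ) = v := Subsingleton.elim _ _
            rw [this]
          | succ k ih =>
            intro R hR v
            have h2 := ih (fun a u => R a (Fin.cons (v 0) u)) (by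
              have h3 : Dfn (fun w : Fin (k + 1) → M =>
                  R (w 0) (Fin.cons (v 0) (fun i => w i.succ))) := by
                refine Dfn.sub (P := fun (w : Fin (k + 1) → M) x =>
                  R (w 0) (Fin.cons x (fun i => w i.succ))) (t := fun _ => v 0) ?_ (DT.const _)
                have h4 := hR.ren (m := k + 2) (Fin.cases 1 (Fin.cases 0 fun i => i.succ.succ))
                refine h4.congr fun w => ?_
                have : (fun i : Fin (k + 1) => w ((Fin.cases 1 (Fin.cases 0 fun i => i.succ.succ) :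
                    Fin (k + 2) → Fin (k + 2)) i.succ)) =
                    Fin.cons (w 0) fun i => w i.succ.succ := by
                  funext i
                  refine Fin.cases ?_ (fun i => ?_) i <;> first | rfl | simp
                rw [this]
                rfl
              exact h3) (fun i => v i.succ)
            refine h2.congr fun w => ?_
            have : (Fin.cons (v 0) fun i => v i.succ : Fin (k + 1) → M) = v := by
              funext i
              refine Fin.cases ?_ (fun i => ?_) i <;> first | rfl | simp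
            rw [this]
        exact key _ _ ⟨ψ, hψ⟩ v
      have hd : Dfn (fun w : Fin 1 → M => Fc P le φ (w 0) v ∨ Fc P le (.neg φ) (w 0) v) := by
        refine hd1.or ?_
        refine Dfn.and (by simp) ?_
        refine Dfn.all (P := fun (w : Fin 1 → M) q => op q (w 0) ∈ le → ¬ Fc P le φ q v) ?_
        exact Dfn.imp (by simp (maxDischargeDepth := 50)) (Dfn.not (hd1.ren (m := 2) (fun _ => 0)))
      obtain ⟨s, hs, hs'⟩ := hG.below hP (p := one)
        (Q := fun s => Fc P le φ s v ∨ Fc P le (.neg φ) s v) hd hG.one (by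
          intro q hq
          by_cases h1 : ∃ s, op s q ∈ le ∧ Fc P le φ s v
          · obtain ⟨s, hs, hs'⟩ := h1
            exact ⟨s, hs, Or.inl hs'⟩
          · push Not at h1
            exact ⟨q, hP.refl _ (hP.sub _ _ hq).1, Or.inr ⟨(hP.sub _ _ hq).1, h1⟩⟩)
      rcases hs' with h1 | h1
      · exact (h ⟨s, hs, h1⟩).elim
      · exact ⟨s, hs, h1⟩
    · rintro ⟨p, hp, hp'⟩ ⟨q, hq, hq'⟩
      obtain ⟨r, -, hrp, hrq⟩ := hG.dir p q hp hq
      exact hp'.2 r hrp (frc_mono hP φ hq' hrq)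
  | _, .and φ ψ, v => by
    have hP := hE.po
    have hG := hE.gen
    show (mapP val φ).Sat _ ∧ (mapP val ψ).Sat _ ↔ _
    rw [Ext.truth hE φ v, Ext.truth hE ψ v]
    constructor
    · rintro ⟨⟨p, hp, hp'⟩, q, hq, hq'⟩
      obtain ⟨r, hr, hrp, hrq⟩ := hG.dir p q hp hq
      exact ⟨r, hr, frc_mono hP φ hp' hrp, frc_mono hP ψ hq' hrq⟩
    · rintro ⟨p, hp, h1, h2⟩
      exact ⟨⟨p, hp, h1⟩, p, hp, h2⟩
  | n, .ex φ, v => by
    have hP := hE.po
    have hG := hE.gen
    show (∃ x, (mapP val φ).Sat (Fin.cons x _)) ↔ _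
    have hcons : ∀ y : M, (Fin.cons (val y) fun i => val (v i) : Fin (n + 1) → N) =
        fun i => val ((Fin.cons y v : Fin (n + 1) → M) i) := by
      intro y
      funext i
      refine Fin.cases ?_ (fun i => ?_) i <;> first | rfl | simp
    constructor
    · rintro ⟨x, hx⟩
      obtain ⟨y, rfl⟩ := hE.surj x
      rw [hcons, Ext.truth hE φ] at hx
      obtain ⟨p, hp, hp'⟩ := hx
      exact ⟨p, hp, hG.mem _ hp, fun q hq => ⟨q, hP.refl _ (hP.sub _ _ hq).1, y,
        frc_mono hP φ hp' hq⟩⟩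
    · rintro ⟨p, hp, -, hp'⟩
      have hd1 : ∀ k : ℕ, ∀ (R : M → M → (Fin k → M) → Prop),
            Dfn (fun w : Fin (k + 2) → M => R (w 0) (w 1) (fun i => w i.succ.succ)) →
            ∀ v : Fin k → M, Dfn (fun w : Fin 2 → M => R (w 0) (w 1) v) := by
          intro k
          induction k with
          | zero =>
            intro R hR v
            refine hR.congr fun w => ?_
            have : (fun i : Fin 0 => w i.succ.succ) = v := Subsingleton.elim _ _
            rw [this]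
          | succ k ih =>
            intro R hR v
            have h2 := ih (fun a b u => R a b (Fin.cons (v 0) u)) (by
              have h3 : Dfn (fun w : Fin (k + 2) → M =>
                  R (w 0) (w 1) (Fin.cons (v 0) (fun i => w i.succ.succ))) := by
                refine Dfn.sub (P := fun (w : Fin (k + 2) → M) x =>
                  R (w 0) (w 1) (Fin.cons x (fun i => w i.succ.succ))) (t := fun _ => v 0) ?_
                  (DT.const _)
                have h4 := hR.ren (m := k + 3)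
                  (Fin.cases 1 (Fin.cases 2 (Fin.cases 0 fun i => i.succ.succ.succ)))
                refine h4.congr fun w => ?_
                have : (fun i : Fin (k + 1) => w ((Fin.cases 1 (Fin.cases 2
                    (Fin.cases 0 fun i => i.succ.succ.succ)) :
                    Fin (k + 3) → Fin (k + 3)) i.succ.succ)) =
                    Fin.cons (w 0) fun i => w i.succ.succ.succ := by
                  funext i
                  refine Fin.cases ?_ (fun i => ?_) i <;> first | rfl | simp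
                rw [this]
                rfl
              exact h3) (fun i => v i.succ)
            refine h2.congr fun w => ?_
            have : (Fin.cons (v 0) fun i => v i.succ : Fin (k + 1) → M) = v := by
              funext i
              refine Fin.cases ?_ (fun i => ?_) i <;> first | rfl | simp
            rw [this]
      have hd2 : Dfn (fun w : Fin 2 → M => Fc P le φ (w 1) (Fin.cons (w 0) v)) := by
        refine hd1 n (fun x p v => Fc P le φ p (Fin.cons x v)) ?_ v
        have h := (frc_dfn P le φ).ren (m := n + 2)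
          (Fin.cases 1 (Fin.cases 0 fun i => i.succ.succ))
        refine h.congr fun w => ?_
        have : (fun i : Fin (n + 1) => w ((Fin.cases 1 (Fin.cases 0 fun i => i.succ.succ) :
            Fin (n + 2) → Fin (n + 2)) i.succ)) =
            Fin.cons (w 0) fun i => w i.succ.succ := by
          funext i
          refine Fin.cases ?_ (fun i => ?_) i <;> first | rfl | simp
        rw [this]
        rfl
      obtain ⟨s, hs, x, hx⟩ := hG.below hP (p := p)
        (Q := fun s => ∃ x, Fc P le φ s (Fin.cons x v))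
        (Dfn.ex (P := fun (w : Fin 1 → M) x => Fc P le φ (w 0) (Fin.cons x v)) hd2) hp hp'
      refine ⟨val x, ?_⟩
      rw [hcons, Ext.truth hE φ]
      exact ⟨s, hs, hx⟩

/-- The forcing theorem for a definable relation on the extension. -/
theorem Ext.forcing (hE : Ext P le one G val) {n : ℕ} {R : (Fin n → N) → Prop} (hR : Dfn R) :
    ∃ F : (Fin (n + 1) → M) → Prop, Dfn F ∧ (∀ p v, F (Fin.cons p v) → p ∈ P) ∧
      (∀ p q v, F (Fin.cons p v) → op q p ∈ le → F (Fin.cons q v)) ∧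
      (∀ p v, p ∈ P → (∀ q, op q p ∈ le → ∃ s, op s q ∈ le ∧ F (Fin.cons s v)) →
        F (Fin.cons p v)) ∧
      ∀ v : Fin n → M, R (fun i => val (v i)) ↔ ∃ p, G p ∧ F (Fin.cons p v) := by
  obtain ⟨ψ, hψ⟩ := hR
  obtain ⟨φ, rfl⟩ := exists_mapP hE.surj ψ
  have hcons : ∀ (p : M) (v : Fin n → M), (fun i => (Fin.cons p v : Fin (n + 1) → M) i.succ) = v :=
    fun p v => by funext i; simp
  refine ⟨fun w => Fc P le φ (w 0) (fun i => w i.succ), frc_dfn P le φ, ?_, ?_, ?_, ?_⟩
  · intro p v h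
    simpa [hcons] using frc_mem φ h
  · intro p q v h hq
    simp only [Fin.cons_zero, hcons] at h ⊢
    exact frc_mono hE.po φ h hq
  · intro p v hp h
    simp only [Fin.cons_zero, hcons] at h ⊢
    exact frc_dense hE.po φ hp h
  · intro v
    rw [hψ, hE.truth]
    simp only [Fin.cons_zero, hcons]

theorem Ext.forcing1 (hE : Ext P le one G val) {R : N → Prop}
    (hR : Dfn (fun w : Fin 1 → N => R (w 0))) :
    ∃ F : M → M → Prop, Dfn (fun w : Fin 2 → M => F (w 0) (w 1)) ∧ (∀ p x, F p x → p ∈ P) ∧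
      (∀ p q x, F p x → op q p ∈ le → F q x) ∧
      (∀ p x, p ∈ P → (∀ q, op q p ∈ le → ∃ s, op s q ∈ le ∧ F s x) → F p x) ∧
      ∀ x, R (val x) ↔ ∃ p, G p ∧ F p x := by
  obtain ⟨F, h1, h2, h3, h4, h5⟩ := hE.forcing hR
  refine ⟨fun p x => F (Fin.cons p ![x]), ?_, fun p x => h2 p _, fun p q x => h3 p q _,
    fun p x => h4 p _, fun x => h5 ![x]⟩
  refine h1.congr fun w => ?_
  have h : w = Fin.cons (w 0) ![w 1] := by
    funext i; fin_cases i <;> rfl
  exact iff_of_eq (congrArg F h)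

theorem Ext.forcing2 (hE : Ext P le one G val) {R : N → N → Prop}
    (hR : Dfn (fun w : Fin 2 → N => R (w 0) (w 1))) :
    ∃ F : M → M → M → Prop, Dfn (fun w : Fin 3 → M => F (w 0) (w 1) (w 2)) ∧
      (∀ p x y, F p x y → p ∈ P) ∧
      (∀ p q x y, F p x y → op q p ∈ le → F q x y) ∧
      (∀ p x y, p ∈ P → (∀ q, op q p ∈ le → ∃ s, op s q ∈ le ∧ F s x y) → F p x y) ∧
      ∀ x y, R (val x) (val y) ↔ ∃ p, G p ∧ F p x y := by
  obtain ⟨F, h1, h2, h3, h4, h5⟩ := hE.forcing hR
  refine ⟨fun p x y => F (Fin.cons p ![x, y]), ?_, fun p x y => h2 p _, fun p q x y => h3 p q _,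
    fun p x y => h4 p _, fun x y => h5 ![x, y]⟩
  refine h1.congr fun w => ?_
  have h : w = Fin.cons (w 0) ![w 1, w 2] := by
    funext i; fin_cases i <;> rfl
  exact iff_of_eq (congrArg F h)

theorem Ext.forcing3 (hE : Ext P le one G val) {R : N → N → N → Prop}
    (hR : Dfn (fun w : Fin 3 → N => R (w 0) (w 1) (w 2))) :
    ∃ F : M → M → M → M → Prop, Dfn (fun w : Fin 4 → M => F (w 0) (w 1) (w 2) (w 3)) ∧
      (∀ p x y z, F p x y z → p ∈ P) ∧
      (∀ p q x y z, F p x y z → op q p ∈ le → F q x y z) ∧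
      (∀ p x y z, p ∈ P → (∀ q, op q p ∈ le → ∃ s, op s q ∈ le ∧ F s x y z) → F p x y z) ∧
      ∀ x y z, R (val x) (val y) (val z) ↔ ∃ p, G p ∧ F p x y z := by
  obtain ⟨F, h1, h2, h3, h4, h5⟩ := hE.forcing hR
  refine ⟨fun p x y z => F (Fin.cons p ![x, y, z]), ?_, fun p x y z => h2 p _,
    fun p q x y z => h3 p q _, fun p x y z => h4 p _, fun x y z => h5 ![x, y, z]⟩
  refine h1.congr fun w => ?_
  have h : w = Fin.cons (w 0) ![w 1, w 2, w 3] := by
    funext i; fin_cases i <;> rfl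
  exact iff_of_eq (congrArg F h)

end

end Pool.Agent.Frc
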