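import Pool.Agent.Frc.Cover
import Pool.Agent.Forc.Card

/-!
# Copies of injections, and the transfer of the combinatorial principle to the extension
-/

universe u

set_option linter.unusedSectionVars false

namespace Pool.Agent.Frc

open Pool.Agent.SigB Pool.Agent.Forc

section model

variable {M : Type u} [Membership M M] [IsZFC M]

/-- If `A` maps onto `B` then `B` injects into `A`. -/
theorem le_of_surj {A B f : M} (h : ∀ b, b ∈ B → ∃ a, a ∈ A ∧ ap f a = b) : Le B A := by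
  obtain ⟨g, hg, hgf⟩ := choice' (a := B) (b := A) (P := fun b a => ap f a = b)
    (by simp (maxDischargeDepth := 50)) h
  refine ⟨g, hg, fun x y hx hy hxy => ?_⟩
  rw [← hgf x hx, ← hgf y hy, hxy]

theorem le_of_empty' {A B : M} (h : ∀ x, x ∉ A) : Le A B := Le.of_sb fun x hx => (h x hx).elim

end model

variable {M : Type u} [Membership M M] [IsZFC M] {P le one : M} {G : M → Prop} {N : Type u}
  [Membership N N] {val : M → N} [IsZFC N]

/-- The copy of a function. -/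
theorem Ext.fs_cv (hE : Ext P le one G val) {A B f : M} (hf : f ∈ fs A B) :
    val (ck one f) ∈ fs (val (ck one A)) (val (ck one B)) := by
  obtain ⟨hf1, hf2⟩ := mem_fs.1 hf
  refine mem_fs.2 ⟨hE.fn_cv hf1, fun x hx => ?_⟩
  obtain ⟨a, ha, rfl⟩ := hE.mem_cv.1 hx
  rw [hE.ap_cv hf1 ha, hE.cv_mem]
  exact hf2 a ha

/-- Copies of injections. -/
theorem Ext.cv_le (hE : Ext P le one G val) {A B : M} (h : Le A B) :
    Le (val (ck one A)) (val (ck one B)) := by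
  obtain ⟨f, hf, hfi⟩ := h
  refine ⟨val (ck one f), hE.fs_cv hf, fun x y hx hy hxy => ?_⟩
  obtain ⟨a, ha, rfl⟩ := hE.mem_cv.1 hx
  obtain ⟨b, hb, rfl⟩ := hE.mem_cv.1 hy
  rw [hE.ap_cv (mem_fs.1 hf).1 ha, hE.ap_cv (mem_fs.1 hf).1 hb, hE.cv_inj] at hxy
  rw [hfi a b ha hb hxy]

/-- If the copy of `X` injects into the copy of `A` then `X` injects into `A × P`. -/
theorem Ext.le_of_cv_le (hE : Ext P le one G val) {A X : M}
    (h : Le (val (ck one X)) (val (ck one A))) : Le X (pd A P) := by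
  by_cases hX : ∃ k, k ∈ X
  · obtain ⟨g, hg, hgi⟩ := h
    obtain ⟨H, -, hH⟩ := hE.cover_inj hg (fun x hx y hy => hgi x y hx hy) hX
    exact le_of_surj hH
  · push Not at hX
    exact le_of_empty' hX

/-- The combinatorial principle in the extension. -/
theorem Ext.chang (hE : Ext P le one G val) {I κ μ : M} (hκ : ∃ k, k ∈ κ)
    (hP : Le (pd (SigB.om : M) P) μ) (hμ : Le (val (ck one μ)) (SigB.om : N))
    (hS : ∀ e, e ∈ fs (pd I μ) κ → ∃ y, Sb y κ ∧ Le y μ ∧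
      ¬ Le (sp I fun a => ∀ k, k ∈ μ → ap e (op a k) ∈ y) μ) :
    ∀ e, e ∈ fs (pd (val (ck one I)) (SigB.om : N)) (val (ck one κ)) →
      ∃ y, Sb y (val (ck one κ)) ∧ Le y (SigB.om : N) ∧
        ¬ Le (sp (val (ck one I)) fun a => ∀ n, n ∈ (SigB.om : N) → ap e (op a n) ∈ y)
          (SigB.om : N) := by
  intro e he
  rw [← hE.cv_om, ← hE.cv_pd] at he
  obtain ⟨H, hH, hHe⟩ := hE.cover he hκ
  obtain ⟨i, hi, hii⟩ := hP
  obtain ⟨k₀, hk₀⟩ := hκ
  -- the function in `M`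
  obtain ⟨e', he', hee'⟩ := choice' (a := pd I μ) (b := κ)
    (P := fun u y => ∀ a k n p, u = op a k → n ∈ (SigB.om : M) → p ∈ P → ap i (op n p) = k →
      y = ap H (op (op a n) p)) (by simp (maxDischargeDepth := 50)) (by
      intro u hu
      obtain ⟨a, ha, k, hk, rfl⟩ := mem_pd.1 hu
      by_cases h : ∃ n p, n ∈ (SigB.om : M) ∧ p ∈ P ∧ ap i (op n p) = k
      · obtain ⟨n, p, hn, hp, h⟩ := h
        refine ⟨ap H (op (op a n) p), (mem_fs.1 hH).2 _ (op_mem_pd.2 ⟨op_mem_pd.2 ⟨ha, hn⟩, hp⟩),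
          fun a' k' n' p' h1 hn' hp' h2 => ?_⟩
        obtain ⟨rfl, rfl⟩ := op_inj.1 h1
        have h3 := hii (op n p) (op n' p') (op_mem_pd.2 ⟨hn, hp⟩) (op_mem_pd.2 ⟨hn', hp'⟩)
          (by rw [h, h2])
        obtain ⟨rfl, rfl⟩ := op_inj.1 h3
        rfl
      · refine ⟨k₀, hk₀, fun a' k' n' p' h1 hn' hp' h2 => ?_⟩
        obtain ⟨rfl, rfl⟩ := op_inj.1 h1
        exact (h ⟨n', p', hn', hp', h2⟩).elim)
  have hval : ∀ a n p, a ∈ I → n ∈ (SigB.om : M) → p ∈ P →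
      ap e' (op a (ap i (op n p))) = ap H (op (op a n) p) := by
    intro a n p ha hn hp
    have h1 : ap i (op n p) ∈ μ := (mem_fs.1 hi).2 _ (op_mem_pd.2 ⟨hn, hp⟩)
    exact hee' _ (op_mem_pd.2 ⟨ha, h1⟩) a _ n p rfl hn hp rfl
  obtain ⟨y, hyκ, hyμ, hX⟩ := hS e' he'
  refine ⟨val (ck one y), hE.cv_sb.2 hyκ, (hE.cv_le hyμ).trans hμ, fun hcon => hX ?_⟩
  let X : M := sp I fun a => ∀ k, k ∈ μ → ap e' (op a k) ∈ y
  have hXm : ∀ a, a ∈ X ↔ a ∈ I ∧ ∀ k, k ∈ μ → ap e' (op a k) ∈ y := fun a =>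
    mem_sp (by simp (maxDischargeDepth := 50))
  have hsub : Sb (val (ck one X)) (sp (val (ck one I)) fun a => ∀ n, n ∈ (SigB.om : N) →
      ap e (op a n) ∈ val (ck one y)) := by
    intro z hz
    obtain ⟨a, ha, rfl⟩ := hE.mem_cv.1 hz
    obtain ⟨haI, hak⟩ := (hXm a).1 ha
    rw [mem_sp (by simp (maxDischargeDepth := 50))]
    refine ⟨hE.cv_mem.2 haI, fun n hn => ?_⟩
    rw [← hE.cv_om] at hn
    obtain ⟨n, hnm, rfl⟩ := hE.mem_cv.1 hn
    clear hn
    have hn := hnm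
    obtain ⟨p, hp, h1⟩ := hHe (op a n) (op_mem_pd.2 ⟨haI, hn⟩)
    have hpP := hE.gen.mem p hp
    rw [← hE.cv_op, h1, hE.cv_mem, ← hval a n p haI hn hpP]
    exact hak _ ((mem_fs.1 hi).2 _ (op_mem_pd.2 ⟨hn, hpP⟩))
  have h1 : Le (val (ck one X)) (val (ck one (SigB.om : M))) := by
    rw [hE.cv_om]
    exact (Le.of_sb hsub).trans hcon
  exact (hE.le_of_cv_le h1).trans ⟨i, hi, hii⟩

end Pool.Agent.Frc
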