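import Pool.Agent.Frc.Cover
import Pool.Agent.Forc.Card

/-!
# The collapse of `μ` to `ω`

Conditions are the functions from natural numbers to `μ`, ordered by reverse inclusion.
-/

universe u

set_option linter.unusedSectionVars false

namespace Pool.Agent.Frc

open Pool.Agent.SigB

section model

variable {M : Type u} [Membership M M] [IsZFC M]

/-- The set of finite sequences of elements of `μ`. -/
noncomputable def colP (μ : M) : M :=
  sp (pw (pd SigB.om μ)) fun p => ∃ n, n ∈ (SigB.om : M) ∧ p ∈ fs n μ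

/-- Reverse inclusion on `colP μ`. -/
noncomputable def colLe (μ : M) : M :=
  sp (pd (colP μ) (colP μ)) fun z => ∃ p q, z = op p q ∧ Sb q p

theorem colP.dt : DT (fun w : Fin 1 → M => colP (w 0)) := by
  unfold colP; simp (maxDischargeDepth := 50)

@[simp] theorem dt_colP {n : ℕ} {s : (Fin n → M) → M} (hs : DT s) : DT (fun v => colP (s v)) :=
  dt1 colP.dt hs

theorem colLe.dt : DT (fun w : Fin 1 → M => colLe (w 0)) := by
  unfold colLe; simp (maxDischargeDepth := 50)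

@[simp] theorem dt_colLe {n : ℕ} {s : (Fin n → M) → M} (hs : DT s) : DT (fun v => colLe (s v)) :=
  dt1 colLe.dt hs

theorem sb_pd_of_fs {f a b : M} (hf : f ∈ fs a b) : Sb f (pd a b) := by
  obtain ⟨h1, h2⟩ := mem_fs.1 hf
  intro z hz
  obtain ⟨x, hx, rfl⟩ := h1.mem_iff.1 hz
  exact op_mem_pd.2 ⟨hx, h2 x hx⟩

theorem pd_mono {a b c d : M} (h : Sb a c) (h' : Sb b d) : Sb (pd a b) (pd c d) := by
  intro z hz
  obtain ⟨x, hx, y, hy, rfl⟩ := mem_pd.1 hz
  exact op_mem_pd.2 ⟨h x hx, h' y hy⟩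

theorem mem_colP {μ p : M} : p ∈ colP μ ↔ ∃ n, n ∈ (SigB.om : M) ∧ p ∈ fs n μ := by
  have h1 : p ∈ colP μ ↔ p ∈ pw (pd SigB.om μ) ∧ ∃ n, n ∈ (SigB.om : M) ∧ p ∈ fs n μ :=
    mem_sp (by simp (maxDischargeDepth := 50))
  rw [h1, mem_pw]
  constructor
  · exact fun h => h.2
  · rintro ⟨n, hn, hp⟩
    exact ⟨(sb_pd_of_fs hp).trans (pd_mono (om_ord.1 n hn) (Sb.refl μ)), n, hn, hp⟩

theorem op_mem_colLe {μ p q : M} : op p q ∈ colLe μ ↔ (p ∈ colP μ ∧ q ∈ colP μ) ∧ Sb q p := by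
  have h1 : op p q ∈ colLe μ ↔ op p q ∈ pd (colP μ) (colP μ) ∧
      ∃ p' q', op p q = op p' q' ∧ Sb q' p' := mem_sp (by simp (maxDischargeDepth := 50))
  rw [h1, op_mem_pd]
  refine and_congr_right fun _ => ⟨?_, fun h => ⟨p, q, rfl, h⟩⟩
  rintro ⟨p', q', he, h⟩
  obtain ⟨rfl, rfl⟩ := op_inj.1 he
  exact h

theorem em_mem_colP (μ : M) : (SigB.em : M) ∈ colP μ := by
  refine mem_colP.2 ⟨SigB.em, em_mem_om, mem_fs.2 ⟨⟨fun z hz => absurd hz (not_mem_em z),
    fun x hx => absurd hx (not_mem_em x)⟩, fun x hx => absurd hx (not_mem_em x)⟩⟩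

theorem colPO (μ : M) : PO (colP μ) (colLe μ) (SigB.em : M) where
  sub _ _ h := (op_mem_colLe.1 h).1
  refl p hp := op_mem_colLe.2 ⟨⟨hp, hp⟩, Sb.refl p⟩
  trans _ _ _ h h' := op_mem_colLe.2 ⟨⟨(op_mem_colLe.1 h).1.1, (op_mem_colLe.1 h').1.2⟩,
    (op_mem_colLe.1 h').2.trans (op_mem_colLe.1 h).2⟩
  one_mem := em_mem_colP μ
  top _ hp := op_mem_colLe.2 ⟨⟨hp, em_mem_colP μ⟩, fun z hz => absurd hz (not_mem_em z)⟩

/-- Every condition has an extension with a given value in its range. -/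
theorem exists_ext_range {μ p α : M} (hp : p ∈ colP μ) (hα : α ∈ μ) :
    ∃ q, op q p ∈ colLe μ ∧ ∃ n, n ∈ (SigB.om : M) ∧ op n α ∈ q := by
  obtain ⟨n, hn, hpn⟩ := mem_colP.1 hp
  obtain ⟨h1, h2⟩ := mem_fs.1 hpn
  have hmem : ∀ x y, op x y ∈ un p (pr (op n α) (op n α)) ↔ op x y ∈ p ∨ (x = n ∧ y = α) := by
    intro x y
    rw [mem_un, mem_pr, or_self, op_inj]
  have hdom : ∀ x y, op x y ∈ p → x ∈ n := by
    intro x y h
    obtain ⟨x', hx', he⟩ := h1.mem_iff.1 h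
    rw [(op_inj.1 he).1]; exact hx'
  have hfn : Fn (un p (pr (op n α) (op n α))) (sc n) := by
    constructor
    · intro z hz
      rcases mem_un.1 hz with h | h
      · obtain ⟨x, hx, y, rfl⟩ := h1.1 z h
        exact ⟨x, mem_sc.2 (Or.inl hx), y, rfl⟩
      · rw [mem_pr, or_self] at h
        exact ⟨n, mem_sc_self n, α, h⟩
    · intro x hx
      rcases mem_sc.1 hx with h | rfl
      · obtain ⟨y, hy, hu⟩ := h1.2 x h
        refine ⟨y, (hmem _ _).2 (Or.inl hy), fun y' hy' => ?_⟩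
        rcases (hmem _ _).1 hy' with h3 | ⟨h3, -⟩
        · exact hu y' h3
        · rw [h3] at h
          exact absurd h (not_mem_self n)
      · refine ⟨α, (hmem _ _).2 (Or.inr ⟨rfl, rfl⟩), fun y' hy' => ?_⟩
        rcases (hmem _ _).1 hy' with h3 | ⟨-, h3⟩
        · exact absurd (hdom _ _ h3) (not_mem_self x)
        · exact h3
  have hq : un p (pr (op n α) (op n α)) ∈ colP μ := by
    refine mem_colP.2 ⟨sc n, sc_mem_om hn, mem_fs.2 ⟨hfn, fun x hx => ?_⟩⟩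
    have h3 := (hfn.op_mem_iff hx).2 rfl
    rcases (hmem _ _).1 h3 with h4 | ⟨-, h4⟩
    · have h5 := hdom _ _ h4
      rw [← (h1.op_mem_iff h5).1 h4]
      exact h2 x h5
    · rw [h4]; exact hα
  exact ⟨_, op_mem_colLe.2 ⟨⟨hq, hp⟩, fun z hz => mem_un.2 (Or.inl hz)⟩, n, hn,
    (hmem _ _).2 (Or.inr ⟨rfl, rfl⟩)⟩

/-- The name of the generic filter. -/
noncomputable def gname (P one : M) : M := im P fun p => op (ck one p) p

theorem op_mem_gname {P one w r : M} : op w r ∈ gname P one ↔ r ∈ P ∧ w = ck one r := by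
  have hd : DT (fun w : Fin 1 → M => op (ck one (w 0)) (w 0)) := by simp
  unfold gname
  rw [mem_im hd]
  constructor
  · rintro ⟨p, hp, he⟩
    obtain ⟨rfl, rfl⟩ := op_inj.1 he
    exact ⟨hp, rfl⟩
  · rintro ⟨h, rfl⟩
    exact ⟨r, h, rfl⟩

end model

section ext

variable {M : Type u} [Membership M M] [IsZFC M] {P le one : M} {G : M → Prop} {N : Type u}
  [Membership N N] {val : M → N}

/-- The generic filter as an element of the extension. -/
theorem Ext.mem_gname (hE : Ext P le one G val) {z : N} :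
    z ∈ val (gname P one) ↔ ∃ p, G p ∧ z = val (ck one p) := by
  rw [hE.mem_val]
  constructor
  · rintro ⟨w, r, hw, hr, rfl⟩
    obtain ⟨-, rfl⟩ := op_mem_gname.1 hw
    exact ⟨r, hr, rfl⟩
  · rintro ⟨p, hp, rfl⟩
    exact ⟨_, p, op_mem_gname.2 ⟨hE.gen.mem p hp, rfl⟩, hp, rfl⟩

variable [IsZFC N]

theorem Ext.mem_sU_gname (hE : Ext P le one G val) {z : N} :
    z ∈ sU (val (gname P one)) ↔ ∃ p x, G p ∧ x ∈ p ∧ z = val (ck one x) := by
  rw [mem_sU]
  constructor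
  · rintro ⟨y, hy, hz⟩
    obtain ⟨p, hp, rfl⟩ := hE.mem_gname.1 hy
    obtain ⟨x, hx, rfl⟩ := hE.mem_cv.1 hz
    exact ⟨p, x, hp, hx, rfl⟩
  · rintro ⟨p, x, hp, hx, rfl⟩
    exact ⟨_, hE.mem_gname.2 ⟨p, hp, rfl⟩, hE.cv_mem.2 hx⟩

/-- In the extension by the collapse the copy of `μ` is countable. -/
theorem Ext.col_countable {μ : M} {G : M → Prop} {val : M → N}
    (hE : Ext (colP μ) (colLe μ) SigB.em G val) :
    Forc.Le (val (ck SigB.em μ)) (SigB.om : N) := by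
  let g : N := sU (val (gname (colP μ) SigB.em))
  have hg : ∀ x y : N, op x y ∈ g ↔ ∃ p a b, G p ∧ op a b ∈ p ∧ x = val (ck SigB.em a) ∧
      y = val (ck SigB.em b) := by
    intro x y
    show op x y ∈ sU (val (gname (colP μ) SigB.em)) ↔ _
    rw [hE.mem_sU_gname]
    constructor
    · rintro ⟨p, w, hp, hw, he⟩
      obtain ⟨n, -, hpn⟩ := mem_colP.1 (hE.gen.mem p hp)
      obtain ⟨a, -, b, rfl⟩ := (mem_fs.1 hpn).1.1 w hw
      rw [hE.cv_op] at he
      obtain ⟨rfl, rfl⟩ := op_inj.1 he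
      exact ⟨p, a, b, hp, hw, rfl, rfl⟩
    · rintro ⟨p, a, b, hp, hab, rfl, rfl⟩
      exact ⟨p, op a b, hp, hab, (hE.cv_op a b).symm⟩
  -- functionality
  have hfun : ∀ x y y' : N, op x y ∈ g → op x y' ∈ g → y = y' := by
    intro x y y' h h'
    obtain ⟨p, a, b, hp, hab, rfl, rfl⟩ := (hg _ _).1 h
    obtain ⟨p', a', b', hp', hab', he, rfl⟩ := (hg _ _).1 h'
    rw [hE.cv_inj] at he
    subst he
    obtain ⟨r, hr, hrp, hrp'⟩ := hE.gen.dir p p' hp hp'
    obtain ⟨n, -, hrn⟩ := mem_colP.1 (hE.gen.mem r hr)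
    have h1 := (op_mem_colLe.1 hrp).2 _ hab
    have h2 := (op_mem_colLe.1 hrp').2 _ hab'
    have hfn := (mem_fs.1 hrn).1
    obtain ⟨x, hx, he⟩ := hfn.mem_iff.1 h1
    have hxa := (op_inj.1 he).1
    rw [← hxa] at hx
    rw [← (hfn.op_mem_iff hx).1 h1, ← (hfn.op_mem_iff hx).1 h2]
  -- every element of `μ` is a value
  have hval : ∀ y, y ∈ val (ck SigB.em μ) → ∃ n, n ∈ (SigB.om : N) ∧ op n y ∈ g := by
    intro y hy
    obtain ⟨α, hα, rfl⟩ := hE.mem_cv.1 hy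
    obtain ⟨q, hq, n, hn, hnq⟩ := hE.gen.below (colPO μ) (p := SigB.em)
      (Q := fun q => ∃ n, n ∈ (SigB.om : M) ∧ op n α ∈ q) (by simp (maxDischargeDepth := 50))
      hE.gen.one (fun q hq => exists_ext_range (op_mem_colLe.1 hq).1.1 hα)
    refine ⟨val (ck SigB.em n), ?_, (hg _ _).2 ⟨q, n, α, hq, hnq, rfl, rfl⟩⟩
    rw [← hE.cv_om, hE.cv_mem]
    exact hn
  obtain ⟨h, hh, hhs⟩ := choice' (a := val (ck SigB.em μ)) (b := (SigB.om : N))
    (P := fun x y => op y x ∈ g) (by simp (maxDischargeDepth := 50)) hval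
  refine ⟨h, hh, fun x y hx hy he => ?_⟩
  have h1 := hhs x hx
  have h2 := hhs y hy
  rw [he] at h1
  exact hfun _ _ _ h1 h2

end ext

end Pool.Agent.Frc
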