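import Pool.Agent.Frc.Truth
import Pool.Agent.Frc.Tools

/-!
The generic extension is a model of ZFC.
-/

universe u

set_option linter.unusedSectionVars false

namespace Pool.Agent.Frc

open Pool.Agent.SigB

variable {M : Type u} [Membership M M] [IsZFC M] {P le one : M} {G : M → Prop}
  {N : Type u} [Membership N N] {val : M → N}

/-- The value of the name `{(F y, 1) : y ∈ a}`. -/
theorem Ext.mem_val_im (hE : Ext P le one G val) {a : M} {F : M → M}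
    (hF : DT (fun w : Fin 1 → M => F (w 0))) {z : N} :
    z ∈ val (im a fun y => op (F y) one) ↔ ∃ y, y ∈ a ∧ z = val (F y) := by
  have hF' : ∀ {n : ℕ} {s : (Fin n → M) → M}, DT s → DT fun v => F (s v) := fun hs => dt1 hF hs
  have hd : DT (fun w : Fin 1 → M => op (F (w 0)) one) := by
    simp (maxDischargeDepth := 50) [hF']
  rw [hE.mem_val]
  constructor
  · rintro ⟨y, p, h, hp, rfl⟩
    obtain ⟨x, hx, h⟩ := (mem_im hd).1 h
    exact ⟨x, hx, by rw [(op_inj.1 h).1]⟩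
  · rintro ⟨y, hy, rfl⟩
    exact ⟨F y, one, (mem_im hd).2 ⟨y, hy, rfl⟩, hE.gen.one, rfl⟩

theorem Ext.val_mem_im (hE : Ext P le one G val) {t y : M} (hy : y ∈ t) :
    val y ∈ val (im t fun y => op y one) :=
  (hE.mem_val_im (F := fun y => y) (DT.var 0)).2 ⟨y, hy, rfl⟩

theorem Ext.exists_dom (hE : Ext P le one G val) (x : M) :
    ∃ t : M, Tr t ∧ x ∈ t ∧ ∀ z, z ∈ val x → ∃ y, y ∈ t ∧ z = val y := by
  obtain ⟨t, ht, hx⟩ := exists_tr x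
  refine ⟨t, ht, hx, fun z hz => ?_⟩
  obtain ⟨y, p, h, -, rfl⟩ := hE.mem_val.1 hz
  exact ⟨y, mem_of_op_mem ht hx h, rfl⟩

theorem sat_vec1 {N : Type u} [Membership N N] (φ : Fml N 1) :
    Dfn (fun w : Fin 1 → N => φ.Sat ![w 0]) :=
  ⟨φ, fun v => by
    have : ![v 0] = v := by funext i; fin_cases i; rfl
    exact iff_of_eq (congrArg φ.Sat this)⟩

theorem sat_vec2 {N : Type u} [Membership N N] (φ : Fml N 2) :
    Dfn (fun w : Fin 2 → N => φ.Sat ![w 0, w 1]) :=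
  ⟨φ, fun v => by
    have : ![v 0, v 1] = v := by funext i; fin_cases i <;> rfl
    exact iff_of_eq (congrArg φ.Sat this)⟩

/-- Separation in the extension. -/
theorem Ext.sep (hE : Ext P le one G val) {R : N → Prop}
    (hR : Dfn (fun w : Fin 1 → N => R (w 0))) (a : N) : ∃ b : N, ∀ x, x ∈ b ↔ x ∈ a ∧ R x := by
  obtain ⟨F, hF, hFP, hFm, -, hFt⟩ := hE.forcing1 hR
  have hF' : ∀ {n : ℕ} {s t : (Fin n → M) → M}, DT s → DT t → Dfn fun v => F (s v) (t v) :=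
    fun hs ht => dfn2 hF hs ht
  obtain ⟨a', rfl⟩ := hE.surj a
  obtain ⟨t, ht, ha, hdom⟩ := hE.exists_dom a'
  let b : M := sp (pd t P) fun u => ∃ y p, u = op y p ∧ F p y ∧ MemF P le y a' p
  have hb : ∀ y p, op y p ∈ b ↔ (y ∈ t ∧ p ∈ P) ∧ F p y ∧ MemF P le y a' p := by
    intro y p
    show _ ∈ sp (pd t P) (fun u => ∃ y p, u = op y p ∧ F p y ∧ MemF P le y a' p) ↔ _
    rw [mem_sp (by simp (maxDischargeDepth := 50) [hF']), op_mem_pd]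
    refine and_congr_right fun _ => ⟨?_, fun h => ⟨y, p, rfl, h⟩⟩
    rintro ⟨y', p', h, h'⟩
    obtain ⟨rfl, rfl⟩ := op_inj.1 h
    exact h'
  refine ⟨val b, fun x => ?_⟩
  rw [hE.mem_val]
  constructor
  · rintro ⟨y, p, h, hp, rfl⟩
    obtain ⟨-, h1, h2⟩ := (hb y p).1 h
    exact ⟨(hE.mem_iff _ _).2 ⟨p, hp, h2⟩, (hFt y).2 ⟨p, hp, h1⟩⟩
  · rintro ⟨h1, h2⟩
    obtain ⟨y, hy, rfl⟩ := hdom x h1
    obtain ⟨p, hp, hp'⟩ := (hFt y).1 h2
    obtain ⟨q, hq, hq'⟩ := (hE.mem_iff _ _).1 h1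
    obtain ⟨r, hr, hrp, hrq⟩ := hE.gen.dir p q hp hq
    exact ⟨y, r, (hb y r).2 ⟨⟨hy, hE.gen.mem r hr⟩, hFm _ _ _ hp' hrp,
      MemF.mono hE.po hq' hrq⟩, hr, rfl⟩

/-- The axiom of foundation in the extension. -/
theorem Ext.found (hE : Ext P le one G val) (x : N) (hx : ∃ y, y ∈ x) :
    ∃ y, y ∈ x ∧ ∀ z, z ∈ y → z ∉ x := by
  have hP := hE.po
  obtain ⟨x', rfl⟩ := hE.surj x
  obtain ⟨y, hy⟩ := hx
  obtain ⟨y₀, rfl⟩ := hE.surj y
  obtain ⟨p, hp, hp'⟩ := (hE.mem_iff _ _).1 hy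
  obtain ⟨s, hs, y, hy1, hy2⟩ := hE.gen.below hP (p := p) (Q := fun q => ∃ y, MemF P le y x' q ∧
    ∀ z r, op z r ∈ y → ∀ s, op s q ∈ le → ¬ MemF P le z x' s)
    (by simp (maxDischargeDepth := 50)) hp (by
    intro q hq
    by_contra hno
    push Not at hno
    have key : ∀ y, ∀ s, op s q ∈ le → ¬ MemF P le y x' s := by
      refine name_ind (Q := fun y => ∀ s, op s q ∈ le → ¬ MemF P le y x' s)
        (by simp (maxDischargeDepth := 50)) ?_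
      intro y ih s hs hsy
      obtain ⟨z, r, hz, s', hs', hzx⟩ := hno s hs y hsy
      exact ih z r hz s' (hP.trans _ _ _ hs' hs) hzx
    exact key y₀ q (hP.refl _ (hP.sub _ _ hq).1) (MemF.mono hP hp' hq))
  refine ⟨val y, (hE.mem_iff _ _).2 ⟨s, hs, hy1⟩, fun z hz hzx => ?_⟩
  obtain ⟨z', r, hz', -, rfl⟩ := hE.mem_val.1 hz
  obtain ⟨q, hq, hq'⟩ := (hE.mem_iff _ _).1 hzx
  obtain ⟨r', -, hr1, hr2⟩ := hE.gen.dir s q hs hq
  exact hy2 z' r hz' r' hr1 (MemF.mono hP hq' hr2)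

/-- The axiom of choice in the extension. -/
theorem Ext.choice (hE : Ext P le one G val) (a : N) (hne : ∀ x, x ∈ a → ∃ y, y ∈ x)
    (hdis : ∀ x y : N, x ∈ a → y ∈ a → x ≠ y → ∀ z : N, z ∈ x → z ∉ y) :
    ∃ c : N, ∀ x, x ∈ a → ∃! y, y ∈ x ∧ y ∈ c := by
  have hP := hE.po
  have hG := hE.gen
  obtain ⟨a', rfl⟩ := hE.surj a
  obtain ⟨t, ht, ha, hdom⟩ := hE.exists_dom a'
  have hdom2 : ∀ x, x ∈ val a' → ∀ z, z ∈ x → ∃ y, y ∈ t ∧ z = val y := by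
    intro x hx z hz
    obtain ⟨x', hx', rfl⟩ := hdom x hx
    obtain ⟨y, p, h, -, rfl⟩ := hE.mem_val.1 hz
    exact ⟨y, mem_of_op_mem ht hx' h, rfl⟩
  obtain ⟨κ, f, hκ, hf, hinj, hsurj⟩ := exists_bij_ord t
  -- two elements of the same member of the family
  have hR : Dfn (fun w : Fin 2 → N => ∃ x, x ∈ val a' ∧ w 0 ∈ x ∧ w 1 ∈ x) := by
    refine Dfn.ex (P := fun (w : Fin 2 → N) x => x ∈ val a' ∧ w 0 ∈ x ∧ w 1 ∈ x) ?_
    simp (maxDischargeDepth := 50)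
  obtain ⟨F, hF, hFP, hFm, -, hFt⟩ := hE.forcing2
    (R := fun y z => ∃ x, x ∈ val a' ∧ y ∈ x ∧ z ∈ x) hR
  have hF' : ∀ {n : ℕ} {s t r : (Fin n → M) → M}, DT s → DT t → DT r →
      Dfn fun v => F (s v) (t v) (r v) := fun hs ht hr => dfn3 hF hs ht hr
  let c : M := sp (pd t P) fun u => ∃ α p, α ∈ κ ∧ u = op (ap f α) p ∧
    F p (ap f α) (ap f α) ∧ ∀ β, β ∈ α → ∀ q, op q p ∈ le → ¬ F q (ap f α) (ap f β)
  have hc : ∀ u, u ∈ c ↔ u ∈ pd t P ∧ ∃ α p, α ∈ κ ∧ u = op (ap f α) p ∧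
      F p (ap f α) (ap f α) ∧ ∀ β, β ∈ α → ∀ q, op q p ∈ le → ¬ F q (ap f α) (ap f β) :=
    fun u => mem_sp (by simp (maxDischargeDepth := 50) [hF'])
  -- elements of the value
  have hval : ∀ y, y ∈ val c → ∃ α, α ∈ κ ∧ y = val (ap f α) ∧
      ∀ β, β ∈ α → ∀ x, x ∈ val a' → y ∈ x → val (ap f β) ∉ x := by
    intro y hy
    obtain ⟨y', p, h, hp, rfl⟩ := hE.mem_val.1 hy
    obtain ⟨-, α, p', hα, h1, h2, h3⟩ := (hc _).1 h
    obtain ⟨rfl, rfl⟩ := op_inj.1 h1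
    refine ⟨α, hα, rfl, fun β hβ x hx hyx hβx => ?_⟩
    obtain ⟨q, hq, hq'⟩ := (hFt (ap f α) (ap f β)).1 ⟨x, hx, hyx, hβx⟩
    obtain ⟨r, -, hr1, hr2⟩ := hG.dir _ _ hp hq
    exact h3 β hβ r hr1 (hFm _ _ _ _ hq' hr2)
  refine ⟨val c, fun x hx => ?_⟩
  have huniq : ∀ y y', y ∈ x ∧ y ∈ val c → y' ∈ x ∧ y' ∈ val c → y = y' := by
    rintro y y' ⟨hy, hyc⟩ ⟨hy', hyc'⟩
    obtain ⟨α, hα, rfl, h1⟩ := hval y hyc
    obtain ⟨β, hβ, rfl, h2⟩ := hval y' hyc'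
    rcases (hκ.mem hα).tri (hκ.mem hβ) with h | h | h
    · exact (h2 α h x hx hy' hy).elim
    · rw [h]
    · exact (h1 β h x hx hy hy').elim
  suffices h : ∃ y, y ∈ x ∧ y ∈ val c by
    obtain ⟨y, hy⟩ := h
    exact ⟨y, hy, fun y' hy' => huniq _ _ hy' hy⟩
  obtain ⟨y, hy⟩ := hne x hx
  obtain ⟨x', hx', rfl⟩ := hdom x hx
  obtain ⟨y', hy', rfl⟩ := hdom2 _ hx y hy
  obtain ⟨α₀, hα₀, rfl⟩ := hsurj y' hy'
  obtain ⟨p, hp, hp'⟩ := (hE.mem_iff _ _).1 hy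
  -- the least index
  obtain ⟨s, hs, α, hα, hα1, hα2⟩ := hG.below hP (p := p) (Q := fun q => ∃ α, α ∈ κ ∧
    MemF P le (ap f α) x' q ∧ ∀ β, β ∈ α → ∀ r, op r q ∈ le → ¬ MemF P le (ap f β) x' r)
    (by simp (maxDischargeDepth := 50)) hp (by
    intro q hq
    obtain ⟨α, hα, ⟨r, hr, hr'⟩, hmin⟩ := hκ.least
      (P := fun α => ∃ r, op r q ∈ le ∧ MemF P le (ap f α) x' r)
      (by simp (maxDischargeDepth := 50))
      ⟨α₀, hα₀, q, hP.refl _ (hP.sub _ _ hq).1, MemF.mono hP hp' hq⟩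
    exact ⟨r, hr, α, hα, hr', fun β hβ r' hr'' h =>
      hmin β hβ ⟨r', hP.trans _ _ _ hr'' hr, h⟩⟩)
  have hαx : val (ap f α) ∈ val x' := (hE.mem_iff _ _).2 ⟨s, hs, hα1⟩
  have hβx : ∀ β, β ∈ α → val (ap f β) ∉ val x' := by
    intro β hβ h
    obtain ⟨q, hq, hq'⟩ := (hE.mem_iff _ _).1 h
    obtain ⟨r, -, hr1, hr2⟩ := hG.dir _ _ hs hq
    exact hα2 β hβ r hr1 (MemF.mono hP hq' hr2)
  obtain ⟨q₁, hq₁, hq₁'⟩ := (hFt (ap f α) (ap f α)).1 ⟨_, hx, hαx, hαx⟩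
  obtain ⟨s₂, hs₂, hs₂'⟩ := hG.below hP (p := q₁) (Q := fun q =>
    F q (ap f α) (ap f α) ∧ ((∃ β, β ∈ α ∧ F q (ap f α) (ap f β)) ∨
      ∀ β, β ∈ α → ∀ r, op r q ∈ le → ¬ F r (ap f α) (ap f β)))
    (by simp (maxDischargeDepth := 50) [hF']) hq₁ (by
    intro q hq
    by_cases h : ∃ r, op r q ∈ le ∧ ∃ β, β ∈ α ∧ F r (ap f α) (ap f β)
    · obtain ⟨r, hr, h⟩ := h
      exact ⟨r, hr, hFm _ _ _ _ hq₁' (hP.trans _ _ _ hr hq), Or.inl h⟩
    · push Not at h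
      exact ⟨q, hP.refl _ (hP.sub _ _ hq).1, hFm _ _ _ _ hq₁' hq, Or.inr fun β hβ r hr =>
        h r hr β hβ⟩)
  obtain ⟨h1, h2 | h2⟩ := hs₂'
  · obtain ⟨β, hβ, h3⟩ := h2
    obtain ⟨x₂, hx₂, h4, h5⟩ := (hFt (ap f α) (ap f β)).2 ⟨s₂, hs₂, h3⟩
    by_cases h6 : x₂ = val x'
    · rw [h6] at h5
      exact (hβx β hβ h5).elim
    · exact (hdis _ _ hx₂ hx h6 _ h4 hαx).elim
  · refine ⟨val (ap f α), hαx, hE.mem_val.2 ⟨ap f α, s₂, (hc _).2 ⟨?_, α, s₂, hα, rfl, h1, h2⟩,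
      hs₂, rfl⟩⟩
    exact op_mem_pd.2 ⟨(mem_fs.1 hf).2 α hα, hG.mem _ hs₂⟩

/-- The generic extension is a model of ZFC. -/
theorem Ext.isZFC (hE : Ext P le one G val) : IsZFC N where
  ext := hE.ext
  found := hE.found
  pairing := by
    intro x y
    obtain ⟨x', rfl⟩ := hE.surj x
    obtain ⟨y', rfl⟩ := hE.surj y
    exact ⟨val (im (pr x' y') fun y => op y one), hE.val_mem_im (by simp),
      hE.val_mem_im (by simp)⟩
  union := by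
    intro x
    obtain ⟨x', rfl⟩ := hE.surj x
    obtain ⟨t, ht, hx, hdom⟩ := hE.exists_dom x'
    refine ⟨val (im t fun y => op y one), fun y z hz hy => ?_⟩
    obtain ⟨y', hy', rfl⟩ := hdom y hy
    obtain ⟨z', p, h, -, rfl⟩ := hE.mem_val.1 hz
    exact hE.val_mem_im (mem_of_op_mem ht hy' h)
  power := by
    intro x
    obtain ⟨x', rfl⟩ := hE.surj x
    obtain ⟨t, ht, hx, hdom⟩ := hE.exists_dom x'
    refine ⟨val (im (pw (pd t P)) fun y => op y one), fun y hy => ?_⟩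
    obtain ⟨y', rfl⟩ := hE.surj y
    let c : M := sp (pd t P) fun u => ∃ z p, u = op z p ∧ MemF P le z y' p
    have hc : ∀ z p, op z p ∈ c ↔ (z ∈ t ∧ p ∈ P) ∧ MemF P le z y' p := by
      intro z p
      show _ ∈ sp (pd t P) (fun u => ∃ z p, u = op z p ∧ MemF P le z y' p) ↔ _
      rw [mem_sp (by simp (maxDischargeDepth := 50)), op_mem_pd]
      refine and_congr_right fun _ => ⟨?_, fun h => ⟨z, p, rfl, h⟩⟩
      rintro ⟨z', p', h, h'⟩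
      obtain ⟨rfl, rfl⟩ := op_inj.1 h
      exact h'
    have heq : val y' = val c := by
      refine hE.ext _ _ fun z => ⟨fun hz => ?_, fun hz => ?_⟩
      · obtain ⟨z', hz', rfl⟩ := hdom z (hy z hz)
        obtain ⟨p, hp, hp'⟩ := (hE.mem_iff _ _).1 hz
        exact hE.mem_val.2 ⟨z', p, (hc _ _).2 ⟨⟨hz', hE.gen.mem _ hp⟩, hp'⟩, hp, rfl⟩
      · obtain ⟨z', p, h, hp, rfl⟩ := hE.mem_val.1 hz
        exact (hE.mem_iff _ _).2 ⟨p, hp, ((hc _ _).1 h).2⟩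
    rw [heq]
    refine hE.val_mem_im (mem_pw.2 fun u hu => ?_)
    exact ((mem_sp (by simp (maxDischargeDepth := 50))).1 hu).1
  infinity := by
    obtain ⟨f, hf, h0, h1⟩ := om_recursion (SigB.em : M)
      (G := fun s => un s (pr (op s one) (op s one))) (by simp (maxDischargeDepth := 50))
    have hd : DT (fun w : Fin 1 → M => ap f (w 0)) := by simp (maxDischargeDepth := 50)
    have hI : ∀ z : N, z ∈ val (im (om : M) fun y => op (ap f y) one) ↔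
        ∃ y, y ∈ (om : M) ∧ z = val (ap f y) := fun z => hE.mem_val_im hd
    refine ⟨val (im (om : M) fun y => op (ap f y) one), ⟨val SigB.em, (hI _).2
      ⟨SigB.em, em_mem_om, by rw [h0]⟩, fun z hz => ?_⟩, fun y hy => ?_⟩
    · obtain ⟨y, p, h, -, -⟩ := hE.mem_val.1 hz
      exact not_mem_em _ h
    · obtain ⟨n, hn, rfl⟩ := (hI y).1 hy
      refine ⟨val (ap f (sc n)), (hI _).2 ⟨sc n, sc_mem_om hn, rfl⟩, fun z => ?_⟩
      rw [h1 n hn, hE.mem_val]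
      constructor
      · rintro ⟨y, p, h, hp, rfl⟩
        rcases mem_un.1 h with h | h
        · exact Or.inl (hE.mem_val.2 ⟨y, p, h, hp, rfl⟩)
        · have h2 : op y p = op (ap f n) one := by simpa using h
          rw [(op_inj.1 h2).1]
          exact Or.inr rfl
      · rintro (h | rfl)
        · obtain ⟨y, p, h', hp, rfl⟩ := hE.mem_val.1 h
          exact ⟨y, p, mem_un.2 (Or.inl h'), hp, rfl⟩
        · exact ⟨ap f n, one, mem_un.2 (Or.inr (by simp)), hE.gen.one, rfl⟩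
  separation := fun φ a => hE.sep (R := fun x => φ.Sat ![x]) (sat_vec1 φ) a
  replacement := by
    intro φ a h
    obtain ⟨F, hF, hFP, hFm, -, hFt⟩ := hE.forcing2 (R := fun x y => φ.Sat ![x, y]) (sat_vec2 φ)
    have hF' : ∀ {n : ℕ} {s t r : (Fin n → M) → M}, DT s → DT t → DT r →
        Dfn fun v => F (s v) (t v) (r v) := fun hs ht hr => dfn3 hF hs ht hr
    obtain ⟨a', rfl⟩ := hE.surj a
    obtain ⟨t, ht, ha, hdom⟩ := hE.exists_dom a'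
    obtain ⟨b, hb⟩ := collection (R := fun u y => ∃ x p, u = op x p ∧ F p x y)
      (by simp (maxDischargeDepth := 50) [hF']) (pd t P)
    refine ⟨val (im b fun y => op y one), fun x hx => ?_⟩
    obtain ⟨x', hx', rfl⟩ := hdom x hx
    obtain ⟨y, hy, -⟩ := h _ hx
    obtain ⟨y', rfl⟩ := hE.surj y
    obtain ⟨p, hp, hp'⟩ := (hFt _ _).1 hy
    obtain ⟨z, hz, x₂, p₂, h2, h3⟩ := hb (op x' p) (op_mem_pd.2 ⟨hx', hE.gen.mem _ hp⟩)
      ⟨y', x', p, rfl, hp'⟩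
    obtain ⟨rfl, rfl⟩ := op_inj.1 h2
    exact ⟨val z, hE.val_mem_im hz, (hFt _ _).2 ⟨p, hp, h3⟩⟩
  choice := hE.choice

end Pool.Agent.Frc
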