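import Pool.Agent.Frc.Chang
import Pool.Agent.Frc.Tools

/-!
# The continuum hypothesis in the extension
-/

universe u

set_option linter.unusedSectionVars false

namespace Pool.Agent.Frc

open Pool.Agent.SigB Pool.Agent.Forc

/-- If `P(ω)` injects into an ordinal all of whose elements are countable then every set of
subsets of `ω` is countable or of size the continuum. -/
theorem ch_of_ord {N : Type u} [Membership N N] [IsZFC N] {w : N} (hw : SigB.Ord w)
    (h : ∀ β, β ∈ w → Le β (SigB.om : N)) (hc : Le (pw (SigB.om : N)) w) (X : N) :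
    Le X (SigB.om : N) ∨ Le (pw (SigB.om : N)) X := by
  obtain ⟨α, f, hα, hf, hfi, hfs⟩ := exists_bij_ord X
  have h1 : Le X α := le_of_surj hfs
  have h2 : Le α X := ⟨f, hf, fun x y hx hy hxy => hfi x hx y hy hxy⟩
  rcases hα.tri hw with h3 | h3 | h3
  · exact Or.inl (h1.trans (h α h3))
  · exact Or.inr (hc.trans (h3 ▸ h2))
  · exact Or.inr ((hc.trans (Le.of_sb (hα.sb h3))).trans h2)

variable {M : Type u} [Membership M M] [IsZFC M] {P le one : M} {G : M → Prop} {N : Type u}
  [Membership N N] {val : M → N}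

/-- The name of the generic filter. -/
noncomputable def gnm (one P : M) : M := im P fun p => op (ck one p) p

/-- The generic filter is a set of the extension. -/
theorem Ext.mem_gnm (hE : Ext P le one G val) {z : N} :
    z ∈ val (gnm one P) ↔ ∃ p, G p ∧ z = val (ck one p) := by
  rw [hE.mem_val]
  constructor
  · rintro ⟨y, p, h, hp, rfl⟩
    obtain ⟨q, hq, h⟩ := (mem_im (by simp (maxDischargeDepth := 50))).1 h
    obtain ⟨rfl, rfl⟩ := op_inj.1 h
    exact ⟨p, hp, rfl⟩
  · rintro ⟨p, hp, rfl⟩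
    exact ⟨ck one p, p, (mem_im (by simp (maxDischargeDepth := 50))).2 ⟨p, hE.gen.mem p hp, rfl⟩,
      hp, rfl⟩

variable [IsZFC N]

/-- The power set of a copy injects into a copy. -/
theorem Ext.pw_le (hE : Ext P le one G val) (A : M) :
    Le (pw (val (ck one A))) (val (ck one (pw (pd A P)))) := by
  let D : N → N := fun c => sp (val (ck one A)) fun n => ∃ q, q ∈ val (gnm one P) ∧ op n q ∈ c
  have hDm : ∀ c n, n ∈ D c ↔ n ∈ val (ck one A) ∧ ∃ q, q ∈ val (gnm one P) ∧ op n q ∈ c :=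
    fun c n => mem_sp (by simp (maxDischargeDepth := 50))
  have hD : DT (fun w : Fin 1 → N => D (w 0)) := by simp (maxDischargeDepth := 50) [D]
  have hD' : ∀ {n : ℕ} {s : (Fin n → N) → N}, DT s → DT fun v => D (s v) := fun hs => dt1 hD hs
  obtain ⟨f, hf, hfv⟩ := choice' (a := pw (val (ck one A))) (b := val (ck one (pw (pd A P))))
    (P := fun x c => x = D c) (by simp (maxDischargeDepth := 50) [hD']) (by
      intro x hx
      rw [mem_pw] at hx
      obtain ⟨S, hS, hSx⟩ := hE.nice A x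
      refine ⟨val (ck one S), hE.cv_mem.2 (mem_pw.2 hS), ext' fun z => ?_⟩
      rw [hDm]
      constructor
      · intro hz
        obtain ⟨n, hn, rfl⟩ := hE.mem_cv.1 (hx z hz)
        obtain ⟨p, hp, h⟩ := (hSx n hn).1 hz
        exact ⟨hE.cv_mem.2 hn, _, hE.mem_gnm.2 ⟨p, hp, rfl⟩, hE.cv_op_mem.2 h⟩
      · rintro ⟨h1, q, hq, h⟩
        obtain ⟨n, hn, rfl⟩ := hE.mem_cv.1 h1
        obtain ⟨p, hp, rfl⟩ := hE.mem_gnm.1 hq
        exact (hSx n hn).2 ⟨p, hp, hE.cv_op_mem.1 h⟩)
  exact ⟨f, hf, fun x y hx hy hxy => by rw [hfv x hx, hfv y hy, hxy]⟩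

/-- The continuum hypothesis in the extension. -/
theorem Ext.ch (hE : Ext P le one G val) {w μ : M} (hw : SigB.Ord w) (hβ : ∀ β, β ∈ w → Le β μ)
    (hP : Le (pw (pd (SigB.om : M) P)) w) (hμ : Le (val (ck one μ)) (SigB.om : N)) (X : N) :
    Le X (SigB.om : N) ∨ Le (pw (SigB.om : N)) X := by
  refine ch_of_ord (w := val (ck one w)) (hE.cv_ord.2 hw) (fun β hβ' => ?_) ?_ X
  · obtain ⟨γ, hγ, rfl⟩ := hE.mem_cv.1 hβ'
    exact (hE.cv_le (hβ γ hγ)).trans hμ
  · have h := hE.pw_le (SigB.om : M)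
    rw [hE.cv_om] at h
    exact h.trans (hE.cv_le hP)

end Pool.Agent.Frc
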