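import Pool.Agent.Frc.Truth

/-!
# Check names

`ck one x` is the canonical name of the element `x` of `M`, and `val (ck one x)` is the copy of
`x` in the extension.
-/

universe u

set_option linter.unusedSectionVars false

namespace Pool.Agent.Frc

open Pool.Agent.SigB

section model

variable {M : Type u} [Membership M M] [IsZFC M]

/-- `f` computes the check names on the transitive set `t`. -/
def IsCk (one f t : M) : Prop :=
  Fn f t ∧ ∀ x, x ∈ t → ∀ z, z ∈ ap f x ↔ ∃ y, y ∈ x ∧ z = op (ap f y) one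

theorem IsCk.dfn : Dfn (fun w : Fin 3 → M => IsCk (w 0) (w 1) (w 2)) := by
  unfold IsCk; simp (maxDischargeDepth := 50)

@[simp] theorem dfn_IsCk {n : ℕ} {s t r : (Fin n → M) → M} (hs : DT s) (ht : DT t) (hr : DT r) :
    Dfn (fun v => IsCk (s v) (t v) (r v)) := dfn3 IsCk.dfn hs ht hr

theorem exists_isCk (one : M) {t : M} (ht : Tr t) : ∃ f, IsCk one f t := by
  let r : M := sp (pd t t) fun z => ∃ x y, z = op y x ∧ y ∈ x
  have hr : ∀ x y, op y x ∈ r ↔ (y ∈ t ∧ x ∈ t) ∧ y ∈ x := by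
    intro x y
    show op y x ∈ sp (pd t t) (fun z => ∃ x y, z = op y x ∧ y ∈ x) ↔ _
    rw [mem_sp (by simp (maxDischargeDepth := 50)), op_mem_pd]
    refine and_congr_right fun _ => ?_
    constructor
    · rintro ⟨x', y', h, h'⟩
      obtain ⟨rfl, rfl⟩ := op_inj.1 h
      exact h'
    · intro h
      exact ⟨x, y, rfl, h⟩
  have hwf : Wf t r := by
    intro S hS hne
    obtain ⟨m, hm, hmin⟩ := IsZFC.found S hne
    exact ⟨m, hm, fun y hy h => hmin y ((hr m y).1 h).2 hy⟩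
  obtain ⟨f, hf, hfr⟩ := recursion hwf
    (G := fun x h => im x fun y => op (ap h y) one) (by
      refine dt_im (F := fun (w : Fin 2 → M) y => op (ap (w 1) y) one) (DT.var 0) ?_
      exact dt_op (dt_ap (DT.var _) (DT.var 0)) (DT.const _))
  refine ⟨f, hf, fun x hx z => ?_⟩
  have hprd : prd t r x = x := by
    refine ext' fun y => ?_
    rw [mem_prd, hr]
    constructor
    · rintro ⟨-, -, h⟩
      exact h
    · intro h
      exact ⟨ht x hx y h, ⟨ht x hx y h, hx⟩, h⟩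
  have hd : DT (fun w : Fin 1 → M => op (ap (rs f x) (w 0)) one) := by
    simp (maxDischargeDepth := 50)
  rw [hfr x hx, hprd, mem_im hd]
  refine exists_congr fun y => and_congr_right fun hy => ?_
  rw [ap_rs hf (ht x hx) hy]

theorem IsCk.agree {one f g t s : M} (ht : Tr t) (hs : Tr s) (hf : IsCk one f t)
    (hg : IsCk one g s) (x : M) : x ∈ t → x ∈ s → ap f x = ap g x := by
  refine mem_ind (Q := fun x => x ∈ t → x ∈ s → ap f x = ap g x)
    (by simp (maxDischargeDepth := 50)) (fun x ih hxt hxs => ?_) x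
  refine ext' fun z => ?_
  rw [hf.2 x hxt, hg.2 x hxs]
  refine exists_congr fun y => and_congr_right fun hy => ?_
  rw [ih y hy (ht x hxt y hy) (hs x hxs y hy)]

/-- The check name of `x`. -/
noncomputable def ck (one x : M) : M :=
  cp fun z => ∃ f t, Tr t ∧ x ∈ t ∧ IsCk one f t ∧ z ∈ ap f x

theorem ck.dt : DT (fun w : Fin 2 → M => ck (w 0) (w 1)) := by
  unfold ck; simp (maxDischargeDepth := 50)

@[simp] theorem dt_ck {n : ℕ} {s t : (Fin n → M) → M} (hs : DT s) (ht : DT t) :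
    DT (fun v => ck (s v) (t v)) := dt2 ck.dt hs ht

theorem ck_eq {one f t x : M} (ht : Tr t) (hx : x ∈ t) (hf : IsCk one f t) :
    ck one x = ap f x := by
  have h1 : ∀ z, z ∈ ap f x ↔ ∃ f t, Tr t ∧ x ∈ t ∧ IsCk one f t ∧ z ∈ ap f x := by
    intro z
    constructor
    · exact fun hz => ⟨f, t, ht, hx, hf, hz⟩
    · rintro ⟨g, s, hs, hxs, hg, hz⟩
      rwa [hf.agree ht hs hg x hx hxs]
  refine ext' fun z => ?_
  unfold ck
  rw [mem_cp ⟨ap f x, h1⟩, ← h1]

theorem mem_ck {one x z : M} : z ∈ ck one x ↔ ∃ y, y ∈ x ∧ z = op (ck one y) one := by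
  obtain ⟨t, ht, hx⟩ := exists_tr x
  obtain ⟨f, hf⟩ := exists_isCk one ht
  rw [ck_eq ht hx hf, hf.2 x hx]
  refine exists_congr fun y => and_congr_right fun hy => ?_
  rw [ck_eq ht (ht x hx y hy) hf]

theorem op_mem_ck {one x w r : M} : op w r ∈ ck one x ↔ r = one ∧ ∃ y, y ∈ x ∧ w = ck one y := by
  rw [mem_ck]
  constructor
  · rintro ⟨y, hy, h⟩
    obtain ⟨rfl, rfl⟩ := op_inj.1 h
    exact ⟨rfl, y, hy, rfl⟩
  · rintro ⟨rfl, y, hy, rfl⟩
    exact ⟨y, hy, rfl⟩

/-- If some condition forces equality of check names, then the sets are equal. -/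
theorem eqF_ck {P le one : M} (hP : PO P le one) (x : M) :
    ∀ y p, p ∈ P → EqF P le (ck one x) (ck one y) p → x = y := by
  refine mem_ind (Q := fun x => ∀ y p, p ∈ P → EqF P le (ck one x) (ck one y) p → x = y)
    (by simp (maxDischargeDepth := 50)) (fun x ih y p hp h => ?_) x
  have key : ∀ a b : M, EqF P le (ck one a) (ck one b) p → ∀ z, z ∈ a →
      ∃ w q, w ∈ b ∧ q ∈ P ∧ EqF P le (ck one z) (ck one w) q := by
    intro a b hab z hz
    have h1 : MemF P le (ck one z) (ck one a) p :=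
      memF_of_mem hP (op_mem_ck.2 ⟨rfl, z, hz, rfl⟩) (hP.top p hp)
    obtain ⟨s, hs, w, t, hw, hst, he⟩ := (h1.congr_right hP hab).2 p (hP.refl p hp)
    obtain ⟨rfl, v, hv, rfl⟩ := op_mem_ck.1 hw
    exact ⟨v, s, hv, (hP.sub _ _ hs).1, he⟩
  refine ext' fun z => ⟨fun hz => ?_, fun hz => ?_⟩
  · obtain ⟨w, q, hw, hq, he⟩ := key x y h z hz
    rwa [ih z hz w q hq he]
  · obtain ⟨w, q, hw, hq, he⟩ := key y x (h.symm hP) z hz
    have := ih w hw z q hq (he.symm hP)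
    rwa [← this]

end model

section ext

variable {M : Type u} [Membership M M] [IsZFC M] {P le one : M} {G : M → Prop} {N : Type u}
  [Membership N N] {val : M → N}

/-- The elements of the copy of `x`. -/
theorem Ext.mem_cv (hE : Ext P le one G val) {x : M} {z : N} :
    z ∈ val (ck one x) ↔ ∃ y, y ∈ x ∧ z = val (ck one y) := by
  rw [hE.mem_val]
  constructor
  · rintro ⟨w, r, hw, -, rfl⟩
    obtain ⟨-, y, hy, rfl⟩ := op_mem_ck.1 hw
    exact ⟨y, hy, rfl⟩
  · rintro ⟨y, hy, rfl⟩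
    exact ⟨ck one y, one, op_mem_ck.2 ⟨rfl, y, hy, rfl⟩, hE.gen.one, rfl⟩

theorem Ext.cv_inj (hE : Ext P le one G val) {x y : M} :
    val (ck one x) = val (ck one y) ↔ x = y := by
  constructor
  · intro h
    obtain ⟨p, hp, he⟩ := (hE.eq_iff _ _).1 h
    exact eqF_ck hE.po x y p (hE.gen.mem p hp) he
  · rintro rfl; rfl

theorem Ext.cv_mem (hE : Ext P le one G val) {x y : M} :
    val (ck one x) ∈ val (ck one y) ↔ x ∈ y := by
  rw [hE.mem_cv]
  constructor
  · rintro ⟨z, hz, h⟩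
    rwa [hE.cv_inj.1 h]
  · intro h
    exact ⟨x, h, rfl⟩

variable [IsZFC N]

theorem Ext.cv_sb (hE : Ext P le one G val) {x y : M} :
    Sb (val (ck one x)) (val (ck one y)) ↔ Sb x y := by
  constructor
  · intro h z hz
    exact hE.cv_mem.1 (h _ (hE.cv_mem.2 hz))
  · intro h z hz
    obtain ⟨w, hw, rfl⟩ := hE.mem_cv.1 hz
    exact hE.cv_mem.2 (h w hw)

theorem Ext.cv_em (hE : Ext P le one G val) : val (ck one SigB.em) = SigB.em := by
  refine ext' fun z => ?_
  rw [hE.mem_cv]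
  simp

theorem Ext.cv_pr (hE : Ext P le one G val) (x y : M) :
    val (ck one (pr x y)) = pr (val (ck one x)) (val (ck one y)) := by
  refine ext' fun z => ?_
  rw [hE.mem_cv, mem_pr]
  constructor
  · rintro ⟨w, hw, rfl⟩
    rcases mem_pr.1 hw with rfl | rfl
    · exact Or.inl rfl
    · exact Or.inr rfl
  · rintro (rfl | rfl)
    · exact ⟨x, by simp, rfl⟩
    · exact ⟨y, by simp, rfl⟩

theorem Ext.cv_op (hE : Ext P le one G val) (x y : M) :
    val (ck one (op x y)) = op (val (ck one x)) (val (ck one y)) := by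
  unfold op
  rw [hE.cv_pr, hE.cv_pr, hE.cv_pr]

theorem Ext.cv_sU (hE : Ext P le one G val) (x : M) :
    val (ck one (sU x)) = sU (val (ck one x)) := by
  refine ext' fun z => ?_
  rw [hE.mem_cv, mem_sU]
  constructor
  · rintro ⟨w, hw, rfl⟩
    obtain ⟨y, hy, hwy⟩ := mem_sU.1 hw
    exact ⟨_, hE.cv_mem.2 hy, hE.cv_mem.2 hwy⟩
  · rintro ⟨y, hy, hz⟩
    obtain ⟨y, hy', rfl⟩ := hE.mem_cv.1 hy
    obtain ⟨w, hw, rfl⟩ := hE.mem_cv.1 hz
    exact ⟨w, mem_sU.2 ⟨y, hy', hw⟩, rfl⟩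

theorem Ext.cv_un (hE : Ext P le one G val) (x y : M) :
    val (ck one (un x y)) = un (val (ck one x)) (val (ck one y)) := by
  unfold un
  rw [hE.cv_sU, hE.cv_pr]

theorem Ext.cv_sc (hE : Ext P le one G val) (x : M) :
    val (ck one (sc x)) = sc (val (ck one x)) := by
  unfold sc
  rw [hE.cv_un, hE.cv_pr]

theorem Ext.cv_pd (hE : Ext P le one G val) (x y : M) :
    val (ck one (pd x y)) = pd (val (ck one x)) (val (ck one y)) := by
  refine ext' fun z => ?_
  rw [hE.mem_cv, mem_pd]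
  constructor
  · rintro ⟨w, hw, rfl⟩
    obtain ⟨a, ha, b, hb, rfl⟩ := mem_pd.1 hw
    exact ⟨_, hE.cv_mem.2 ha, _, hE.cv_mem.2 hb, hE.cv_op a b⟩
  · rintro ⟨a, ha, b, hb, rfl⟩
    obtain ⟨a, ha', rfl⟩ := hE.mem_cv.1 ha
    obtain ⟨b, hb', rfl⟩ := hE.mem_cv.1 hb
    exact ⟨op a b, op_mem_pd.2 ⟨ha', hb'⟩, (hE.cv_op a b).symm⟩

theorem Ext.cv_tr (hE : Ext P le one G val) {x : M} : Tr (val (ck one x)) ↔ Tr x := by
  constructor
  · intro h y hy
    exact hE.cv_sb.1 (h _ (hE.cv_mem.2 hy))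
  · intro h y hy
    obtain ⟨w, hw, rfl⟩ := hE.mem_cv.1 hy
    exact hE.cv_sb.2 (h w hw)

theorem Ext.cv_ord (hE : Ext P le one G val) {x : M} : Ord (val (ck one x)) ↔ Ord x := by
  constructor
  · intro h
    exact ⟨hE.cv_tr.1 h.1, fun y hy => hE.cv_tr.1 (h.2 _ (hE.cv_mem.2 hy))⟩
  · intro h
    refine ⟨hE.cv_tr.2 h.1, fun y hy => ?_⟩
    obtain ⟨w, hw, rfl⟩ := hE.mem_cv.1 hy
    exact hE.cv_tr.2 (h.2 w hw)

theorem Ext.cv_op_mem (hE : Ext P le one G val) {f x y : M} :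
    op (val (ck one x)) (val (ck one y)) ∈ val (ck one f) ↔ op x y ∈ f := by
  rw [← hE.cv_op, hE.cv_mem]

theorem mem_sU_op {x y : N} : x ∈ sU (op x y) ∧ y ∈ sU (op x y) := by
  have h : pr x y ∈ op x y := by unfold op; simp
  exact ⟨mem_sU.2 ⟨_, h, by simp⟩, mem_sU.2 ⟨_, h, by simp⟩⟩

/-- A pair in the copy of `f` is the copy of a pair in `f`. -/
theorem Ext.of_op_mem (hE : Ext P le one G val) {f : M} {x y : N}
    (h : op x y ∈ val (ck one f)) :
    ∃ a b, x = val (ck one a) ∧ y = val (ck one b) ∧ op a b ∈ f := by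
  obtain ⟨z, hz, he⟩ := hE.mem_cv.1 h
  obtain ⟨h1, h2⟩ := mem_sU_op (x := x) (y := y)
  rw [he, ← hE.cv_sU] at h1 h2
  obtain ⟨a, -, rfl⟩ := hE.mem_cv.1 h1
  obtain ⟨b, -, rfl⟩ := hE.mem_cv.1 h2
  rw [← hE.cv_op, hE.cv_inj] at he
  exact ⟨a, b, rfl, rfl, by rwa [he]⟩

theorem Ext.fn_cv (hE : Ext P le one G val) {f a : M} (h : Fn f a) :
    Fn (val (ck one f)) (val (ck one a)) := by
  constructor
  · intro z hz
    obtain ⟨w, hw, rfl⟩ := hE.mem_cv.1 hz
    obtain ⟨x, hx, y, rfl⟩ := h.1 w hw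
    exact ⟨_, hE.cv_mem.2 hx, _, hE.cv_op x y⟩
  · intro x hx
    obtain ⟨x, hx', rfl⟩ := hE.mem_cv.1 hx
    obtain ⟨y, hy, huniq⟩ := h.2 x hx'
    refine ⟨val (ck one y), hE.cv_op_mem.2 hy, fun y' hy' => ?_⟩
    obtain ⟨a', b', h1, rfl, h3⟩ := hE.of_op_mem hy'
    rw [hE.cv_inj] at h1
    subst h1
    rw [huniq b' h3]

theorem Ext.ap_cv (hE : Ext P le one G val) {f a x : M} (h : Fn f a) (hx : x ∈ a) :
    ap (val (ck one f)) (val (ck one x)) = val (ck one (ap f x)) := by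
  refine ((hE.fn_cv h).op_mem_iff (hE.cv_mem.2 hx)).1 ?_
  rw [hE.cv_op_mem]
  exact (h.op_mem_iff hx).2 rfl

theorem Ext.cv_om (hE : Ext P le one G val) : val (ck one SigB.om) = SigB.om := by
  apply Sb.antisymm
  · intro z hz
    obtain ⟨n, hn, rfl⟩ := hE.mem_cv.1 hz
    -- induction in `M` on a definable set: use the least counterexample in `N`
    by_contra hno
    have hord : Ord (val (ck one n)) := hE.cv_ord.2 (ord_of_mem_om hn)
    obtain ⟨y, hy, hyP, hmin⟩ := Ord.exists_least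
      (P := fun y : N => y ∈ val (ck one SigB.om) ∧ y ∉ (SigB.om : N))
      (by simp (maxDischargeDepth := 50)) hord ⟨hE.cv_mem.2 hn, hno⟩
    obtain ⟨m, hm, rfl⟩ := hE.mem_cv.1 hyP.1
    rcases om_cases hm with rfl | ⟨k, hk, rfl⟩
    · apply hyP.2
      rw [hE.cv_em]
      exact em_mem_om
    · apply hyP.2
      rw [hE.cv_sc]
      apply sc_mem_om
      by_contra hk'
      refine hmin (val (ck one k)) ?_ ⟨hE.cv_mem.2 hk, hk'⟩
      rw [hE.cv_sc]; exact mem_sc_self _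
  · intro z hz
    refine mem_om.1 hz _ ⟨?_, fun x hx => ?_⟩
    · rw [← hE.cv_em, hE.cv_mem]; exact em_mem_om
    · obtain ⟨n, hn, rfl⟩ := hE.mem_cv.1 hx
      rw [← hE.cv_sc, hE.cv_mem]; exact sc_mem_om hn

/-- The ordinals of `M` do not form a set. -/
theorem no_ord_set (A : M) (h : ∀ α : M, Ord α → α ∈ A) : False := by
  let O : M := sp A Ord
  have hO : ∀ x, x ∈ O ↔ Ord x := by
    intro x
    have h1 : x ∈ O ↔ x ∈ A ∧ Ord x := mem_sp (by simp)
    rw [h1]
    exact ⟨fun h => h.2, fun h' => ⟨h x h', h'⟩⟩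
  have hord : Ord O := ord_mk (fun y hy z hz => (hO z).2 (((hO y).1 hy).mem hz))
    fun y hy => (hO y).1 hy
  exact not_mem_self O ((hO O).2 hord)

/-- Every ordinal of the extension is the copy of an ordinal of `M`. -/
theorem Ext.ord_eq (hE : Ext P le one G val) {β : N} (hβ : Ord β) :
    ∃ α, Ord α ∧ β = val (ck one α) := by
  have hP := hE.po
  obtain ⟨b, rfl⟩ := hE.surj β
  by_cases hex : ∃ α : M, Ord α ∧ val (ck one α) ∉ val b
  · obtain ⟨α, hα, hn⟩ := hex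
    have hα' : Ord (val (ck one α)) := hE.cv_ord.2 hα
    rcases hβ.tri hα' with h | h | h
    · obtain ⟨γ, hγ, he⟩ := hE.mem_cv.1 h
      exact ⟨γ, hα.mem hγ, he⟩
    · exact ⟨α, hα, h⟩
    · exact absurd h hn
  · push Not at hex
    exfalso
    obtain ⟨t, ht, hbt⟩ := exists_tr b
    -- the ordinals decided by a condition to be a name in `t`
    let R : M → M → Prop := fun x α => ∃ w p, x = op w p ∧ Ord α ∧ EqF P le (ck one α) w p
    have hR : Dfn (fun w : Fin 2 → M => R (w 0) (w 1)) := by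
      simp (maxDischargeDepth := 50) [R]
    let F : M → M := fun x => cp fun z => ∃ α, R x α ∧ z ∈ α
    have hF : DT (fun w : Fin 1 → M => F (w 0)) := by
      simp (maxDischargeDepth := 50) [F, R]
    have hFv : ∀ x α, R x α → F x = α := by
      rintro x α ⟨w, p, rfl, hα, he⟩
      have h1 : ∀ z, z ∈ α ↔ ∃ α', R (op w p) α' ∧ z ∈ α' := by
        intro z
        constructor
        · exact fun hz => ⟨α, ⟨w, p, rfl, hα, he⟩, hz⟩
        · rintro ⟨α', ⟨w', p', h2, hα', he'⟩, hz⟩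
          obtain ⟨rfl, rfl⟩ := op_inj.1 h2
          have := eqF_ck hP α' α p he.mem (he'.trans hP (he.symm hP))
          rwa [← this]
      refine ext' fun z => ?_
      show z ∈ cp _ ↔ _
      rw [mem_cp ⟨α, h1⟩, ← h1]
    refine no_ord_set (im (pd t P) F) fun α hα => (mem_im hF).2 ?_
    obtain ⟨w, r, hw, -, he⟩ := hE.mem_val.1 (hex α hα)
    obtain ⟨p, hp, hep⟩ := (hE.eq_iff _ _).1 he
    refine ⟨op w p, op_mem_pd.2 ⟨mem_of_op_mem ht hbt hw, hep.mem⟩, ?_⟩
    exact (hFv _ _ ⟨w, p, rfl, hα, hep⟩).symm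

end ext

end Pool.Agent.Frc
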