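import Pool.Agent.SigB.Rec

/-!
Names and the forcing relation for atomic formulas in a model of ZFC.
-/

universe u

set_option linter.unusedSectionVars false

namespace Pool.Agent.Frc

open Pool.Agent.SigB

variable {M : Type u} [Membership M M] [IsZFC M]

/-- Induction along membership. -/
theorem mem_ind {Q : M → Prop} (hQ : Dfn (fun w : Fin 1 → M => Q (w 0)))
    (h : ∀ x, (∀ y, y ∈ x → Q y) → Q x) (x : M) : Q x := by
  by_contra hn
  obtain ⟨t, ht, hx⟩ := exists_tr x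
  obtain ⟨y, hy, hny, hmin⟩ := found' (P := fun x => ¬ Q x) hQ.not ⟨x, hx, hn⟩
  exact hny (h y fun z hz => not_not.1 (hmin z hz (ht y hy z hz)))

/-- Induction on names. -/
theorem name_ind {Q : M → Prop} (hQ : Dfn (fun w : Fin 1 → M => Q (w 0)))
    (h : ∀ x, (∀ z r, op z r ∈ x → Q z) → Q x) (x : M) : Q x := by
  have hQ' : ∀ {n : ℕ} {s : (Fin n → M) → M}, DT s → Dfn fun v => Q (s v) := fun hs => dfn1 hQ hs
  refine (mem_ind (Q := fun x => Q x ∧ ∀ a, a ∈ x → Q a ∧ ∀ b, b ∈ a → Q b)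
    (by simp (maxDischargeDepth := 50) [hQ']) ?_ x).1
  intro x ih
  refine ⟨h x fun z r hz => ?_, fun a ha => ⟨(ih a ha).1, fun b hb => ((ih a ha).2 b hb).1⟩⟩
  exact ((ih _ hz).2 (pr z z) (by unfold op; simp)).2 z (by simp)

/-- `le` is a preorder on the set `P` with greatest element `one`. -/
structure PO (P le one : M) : Prop where
  sub : ∀ p q, op p q ∈ le → p ∈ P ∧ q ∈ P
  refl : ∀ p, p ∈ P → op p p ∈ le
  trans : ∀ p q r, op p q ∈ le → op q r ∈ le → op p r ∈ le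
  one_mem : one ∈ P
  top : ∀ p, p ∈ P → op p one ∈ le

/-- One step of the recursion for the relation `p ⊩ x = y`. -/
def Psi (le T x y p : M) : Prop :=
  (∀ z r, op z r ∈ x → ∀ q, op q p ∈ le → op q r ∈ le →
    ∃ s, op s q ∈ le ∧ ∃ w t, op w t ∈ y ∧ op s t ∈ le ∧ op (op z w) s ∈ T) ∧
  (∀ w t, op w t ∈ y → ∀ q, op q p ∈ le → op q t ∈ le →
    ∃ s, op s q ∈ le ∧ ∃ z r, op z r ∈ x ∧ op s r ∈ le ∧ op (op z w) s ∈ T)

theorem Psi.dfn : Dfn (fun w : Fin 5 → M => Psi (w 0) (w 1) (w 2) (w 3) (w 4)) := by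
  unfold Psi; simp (maxDischargeDepth := 50)

@[simp] theorem dfn_Psi {n : ℕ} {a b c d e : (Fin n → M) → M} (ha : DT a) (hb : DT b) (hc : DT c)
    (hd : DT d) (he : DT e) : Dfn (fun v => Psi (a v) (b v) (c v) (d v) (e v)) :=
  dfn5 Psi.dfn ha hb hc hd he

/-- `T` computes the forcing relation for equality on the transitive set `t`. -/
def IsE (P le t T : M) : Prop :=
  ∀ x, x ∈ t → ∀ y, y ∈ t → ∀ p, p ∈ P → (op (op x y) p ∈ T ↔ Psi le T x y p)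

theorem IsE.dfn : Dfn (fun w : Fin 4 → M => IsE (w 0) (w 1) (w 2) (w 3)) := by
  unfold IsE; simp (maxDischargeDepth := 50)

@[simp] theorem dfn_IsE {n : ℕ} {a b c d : (Fin n → M) → M} (ha : DT a) (hb : DT b) (hc : DT c)
    (hd : DT d) : Dfn (fun v => IsE (a v) (b v) (c v) (d v)) :=
  dfn4 IsE.dfn ha hb hc hd

/-- The relation `p ⊩ x = y`. -/
def EqF (P le x y p : M) : Prop :=
  p ∈ P ∧ ∃ t T, Tr t ∧ x ∈ t ∧ y ∈ t ∧ IsE P le t T ∧ op (op x y) p ∈ T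

theorem EqF.dfn : Dfn (fun w : Fin 5 → M => EqF (w 0) (w 1) (w 2) (w 3) (w 4)) := by
  unfold EqF; simp (maxDischargeDepth := 50)

@[simp] theorem dfn_EqF {n : ℕ} {a b c d e : (Fin n → M) → M} (ha : DT a) (hb : DT b) (hc : DT c)
    (hd : DT d) (he : DT e) : Dfn (fun v => EqF (a v) (b v) (c v) (d v) (e v)) :=
  dfn5 EqF.dfn ha hb hc hd he

theorem mem_of_op_mem {t x z r : M} (ht : Tr t) (hx : x ∈ t) (h : op z r ∈ x) : z ∈ t := by
  have h1 : op z r ∈ t := ht x hx _ h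
  have h2 : pr z z ∈ t := ht _ h1 _ (by unfold op; simp)
  exact ht _ h2 _ (by simp)

theorem exists_isE {P le one : M} (hP : PO P le one) {t : M} (ht : Tr t) : ∃ T, IsE P le t T := by
  -- the well-founded relation
  let ρ : M := sp (pd (pd t t) (pd t t)) fun u =>
    ∃ z w x y, u = op (op z w) (op x y) ∧ (∃ r, op z r ∈ x) ∧ ∃ r, op w r ∈ y
  have hρ : ∀ z w x y, op (op z w) (op x y) ∈ ρ ↔
      ((z ∈ t ∧ w ∈ t) ∧ x ∈ t ∧ y ∈ t) ∧ (∃ r, op z r ∈ x) ∧ ∃ r, op w r ∈ y := by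
    intro z w x y
    show _ ∈ sp (pd (pd t t) (pd t t)) (fun u =>
      ∃ z w x y, u = op (op z w) (op x y) ∧ (∃ r, op z r ∈ x) ∧ ∃ r, op w r ∈ y) ↔ _
    rw [mem_sp (by simp (maxDischargeDepth := 50)), op_mem_pd, op_mem_pd, op_mem_pd]
    refine and_congr_right fun _ => ⟨?_, fun h => ⟨z, w, x, y, rfl, h⟩⟩
    rintro ⟨z', w', x', y', h, h'⟩
    obtain ⟨h1, h2⟩ := op_inj.1 h
    obtain ⟨rfl, rfl⟩ := op_inj.1 h1
    obtain ⟨rfl, rfl⟩ := op_inj.1 h2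
    exact h'
  have hwf : Wf (pd t t) ρ := by
    intro S hS hne
    by_contra hno
    push Not at hno
    have key : ∀ x, ∀ y, op x y ∉ S := by
      refine name_ind (Q := fun x => ∀ y, op x y ∉ S) (by simp (maxDischargeDepth := 50)) ?_
      intro x ih y hxy
      obtain ⟨u, hu, hur⟩ := hno _ hxy
      obtain ⟨z, hz, w, hw, rfl⟩ := mem_pd.1 (hS u hu)
      obtain ⟨-, ⟨r, hr⟩, -⟩ := (hρ _ _ _ _).1 hur
      exact ih z r hr w hu
    obtain ⟨u, hu⟩ := hne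
    obtain ⟨z, hz, w, hw, rfl⟩ := mem_pd.1 (hS u hu)
    exact key z w hu
  -- the recursion
  let Ph : M → M → M → M → Prop := fun h x y p =>
    (∀ z r, op z r ∈ x → ∀ q, op q p ∈ le → op q r ∈ le →
      ∃ s, op s q ∈ le ∧ ∃ w t, op w t ∈ y ∧ op s t ∈ le ∧ s ∈ ap h (op z w)) ∧
    (∀ w t, op w t ∈ y → ∀ q, op q p ∈ le → op q t ∈ le →
      ∃ s, op s q ∈ le ∧ ∃ z r, op z r ∈ x ∧ op s r ∈ le ∧ s ∈ ap h (op z w))
  have hPh : ∀ {n : ℕ} {a b c d : (Fin n → M) → M}, DT a → DT b → DT c → DT d →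
      Dfn fun v => Ph (a v) (b v) (c v) (d v) := by
    intro n a b c d ha hb hc hd
    refine dfn4 (R := Ph) ?_ ha hb hc hd
    simp (maxDischargeDepth := 50) [Ph]
  let G : M → M → M := fun u h => sp P fun p => ∃ x y, u = op x y ∧ Ph h x y p
  have hG : DT (fun w : Fin 2 → M => G (w 0) (w 1)) := by
    simp (maxDischargeDepth := 50) [G, hPh]
  obtain ⟨f, hf, hfr⟩ := recursion hwf hG
  have hval : ∀ x, x ∈ t → ∀ y, y ∈ t → ∀ p, p ∈ P → (p ∈ ap f (op x y) ↔ Ph f x y p) := by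
    intro x hx y hy p hp
    have hsub : Sb (prd (pd t t) ρ (op x y)) (pd t t) := fun u hu => (mem_prd.1 hu).1
    have hres : ∀ z r w r', op z r ∈ x → op w r' ∈ y →
        ap (rs f (prd (pd t t) ρ (op x y))) (op z w) = ap f (op z w) := by
      intro z r w r' hz hw
      have hz' := mem_of_op_mem ht hx hz
      have hw' := mem_of_op_mem ht hy hw
      refine ap_rs hf hsub ?_
      rw [mem_prd, op_mem_pd, hρ]
      exact ⟨⟨hz', hw'⟩, ⟨⟨hz', hw'⟩, hx, hy⟩, ⟨r, hz⟩, ⟨r', hw⟩⟩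
    rw [hfr (op x y) (op_mem_pd.2 ⟨hx, hy⟩)]
    show p ∈ sp P (fun p => ∃ x' y', op x y = op x' y' ∧ Ph _ x' y' p) ↔ _
    rw [mem_sp (by simp (maxDischargeDepth := 50) [hPh])]
    constructor
    · rintro ⟨-, x', y', h, h1, h2⟩
      obtain ⟨rfl, rfl⟩ := op_inj.1 h
      refine ⟨fun z r hz q hq hq' => ?_, fun w r hw q hq hq' => ?_⟩
      · obtain ⟨s, hs, w, r', hw, hs', hs''⟩ := h1 z r hz q hq hq'
        rw [hres z r w r' hz hw] at hs''
        exact ⟨s, hs, w, r', hw, hs', hs''⟩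
      · obtain ⟨s, hs, z, r', hz, hs', hs''⟩ := h2 w r hw q hq hq'
        rw [hres z r' w r hz hw] at hs''
        exact ⟨s, hs, z, r', hz, hs', hs''⟩
    · rintro ⟨h1, h2⟩
      refine ⟨hp, x, y, rfl, fun z r hz q hq hq' => ?_, fun w r hw q hq hq' => ?_⟩
      · obtain ⟨s, hs, w, r', hw, hs', hs''⟩ := h1 z r hz q hq hq'
        rw [← hres z r w r' hz hw] at hs''
        exact ⟨s, hs, w, r', hw, hs', hs''⟩
      · obtain ⟨s, hs, z, r', hz, hs', hs''⟩ := h2 w r hw q hq hq'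
        rw [← hres z r' w r hz hw] at hs''
        exact ⟨s, hs, z, r', hz, hs', hs''⟩
  let T : M := sp (pd (pd t t) P) fun u => ∃ x y p, u = op (op x y) p ∧ p ∈ ap f (op x y)
  have hT : ∀ x y p, op (op x y) p ∈ T ↔ ((x ∈ t ∧ y ∈ t) ∧ p ∈ P) ∧ p ∈ ap f (op x y) := by
    intro x y p
    show _ ∈ sp (pd (pd t t) P) (fun u => ∃ x y p, u = op (op x y) p ∧ p ∈ ap f (op x y)) ↔ _
    rw [mem_sp (by simp (maxDischargeDepth := 50)), op_mem_pd, op_mem_pd]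
    refine and_congr_right fun _ => ⟨?_, fun h => ⟨x, y, p, rfl, h⟩⟩
    rintro ⟨x', y', p', h, h'⟩
    obtain ⟨h1, rfl⟩ := op_inj.1 h
    obtain ⟨rfl, rfl⟩ := op_inj.1 h1
    exact h'
  refine ⟨T, fun x hx y hy p hp => ?_⟩
  rw [hT, hval x hx y hy p hp]
  constructor
  · rintro ⟨-, h1, h2⟩
    refine ⟨fun z r hz q hq hq' => ?_, fun w r hw q hq hq' => ?_⟩
    · obtain ⟨s, hs, w, r', hw, hs', hs''⟩ := h1 z r hz q hq hq'
      refine ⟨s, hs, w, r', hw, hs', (hT _ _ _).2 ⟨⟨⟨?_, ?_⟩, (hP.sub _ _ hs).1⟩, hs''⟩⟩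
      · exact mem_of_op_mem ht hx hz
      · exact mem_of_op_mem ht hy hw
    · obtain ⟨s, hs, z, r', hz, hs', hs''⟩ := h2 w r hw q hq hq'
      refine ⟨s, hs, z, r', hz, hs', (hT _ _ _).2 ⟨⟨⟨?_, ?_⟩, (hP.sub _ _ hs).1⟩, hs''⟩⟩
      · exact mem_of_op_mem ht hx hz
      · exact mem_of_op_mem ht hy hw
  · rintro ⟨h1, h2⟩
    refine ⟨⟨⟨hx, hy⟩, hp⟩, fun z r hz q hq hq' => ?_, fun w r hw q hq hq' => ?_⟩
    · obtain ⟨s, hs, w, r', hw, hs', hs''⟩ := h1 z r hz q hq hq'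
      exact ⟨s, hs, w, r', hw, hs', ((hT _ _ _).1 hs'').2⟩
    · obtain ⟨s, hs, z, r', hz, hs', hs''⟩ := h2 w r hw q hq hq'
      exact ⟨s, hs, z, r', hz, hs', ((hT _ _ _).1 hs'').2⟩

/-- Two computations of the forcing relation agree. -/
theorem IsE.unique {P le one : M} (hP : PO P le one) {t T t' T' : M} (ht : Tr t) (ht' : Tr t')
    (h : IsE P le t T) (h' : IsE P le t' T') : ∀ x, x ∈ t → x ∈ t' → ∀ y, y ∈ t → y ∈ t' →
    ∀ p, p ∈ P → (op (op x y) p ∈ T ↔ op (op x y) p ∈ T') := by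
  refine name_ind (Q := fun x => x ∈ t → x ∈ t' → ∀ y, y ∈ t → y ∈ t' →
    ∀ p, p ∈ P → (op (op x y) p ∈ T ↔ op (op x y) p ∈ T')) (by simp (maxDischargeDepth := 50)) ?_
  intro x ih hx hx' y hy hy' p hp
  rw [h x hx y hy p hp, h' x hx' y hy' p hp]
  have key : ∀ z r w r', op z r ∈ x → op w r' ∈ y → ∀ s, s ∈ P →
      (op (op z w) s ∈ T ↔ op (op z w) s ∈ T') := fun z r w r' hz hw s hs =>
    ih z r hz (mem_of_op_mem ht hx hz) (mem_of_op_mem ht' hx' hz) w (mem_of_op_mem ht hy hw)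
      (mem_of_op_mem ht' hy' hw) s hs
  constructor
  · rintro ⟨h1, h2⟩
    refine ⟨fun z r hz q hq hq' => ?_, fun w r hw q hq hq' => ?_⟩
    · obtain ⟨s, hs, w, r', hw, hs', hs''⟩ := h1 z r hz q hq hq'
      exact ⟨s, hs, w, r', hw, hs', (key z r w r' hz hw s (hP.sub _ _ hs).1).1 hs''⟩
    · obtain ⟨s, hs, z, r', hz, hs', hs''⟩ := h2 w r hw q hq hq'
      exact ⟨s, hs, z, r', hz, hs', (key z r' w r hz hw s (hP.sub _ _ hs).1).1 hs''⟩
  · rintro ⟨h1, h2⟩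
    refine ⟨fun z r hz q hq hq' => ?_, fun w r hw q hq hq' => ?_⟩
    · obtain ⟨s, hs, w, r', hw, hs', hs''⟩ := h1 z r hz q hq hq'
      exact ⟨s, hs, w, r', hw, hs', (key z r w r' hz hw s (hP.sub _ _ hs).1).2 hs''⟩
    · obtain ⟨s, hs, z, r', hz, hs', hs''⟩ := h2 w r hw q hq hq'
      exact ⟨s, hs, z, r', hz, hs', (key z r' w r hz hw s (hP.sub _ _ hs).1).2 hs''⟩

/-- The recursion for the relation `p ⊩ x = y`. -/
theorem eqF_iff {P le one : M} (hP : PO P le one) {x y p : M} (hp : p ∈ P) :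
    EqF P le x y p ↔
    (∀ z r, op z r ∈ x → ∀ q, op q p ∈ le → op q r ∈ le →
      ∃ s, op s q ∈ le ∧ ∃ w t, op w t ∈ y ∧ op s t ∈ le ∧ EqF P le z w s) ∧
    (∀ w t, op w t ∈ y → ∀ q, op q p ∈ le → op q t ∈ le →
      ∃ s, op s q ∈ le ∧ ∃ z r, op z r ∈ x ∧ op s r ∈ le ∧ EqF P le z w s) := by
  -- a computation whose domain contains both names
  obtain ⟨t, ht, hxy⟩ := exists_tr (pr x y)
  have hx : x ∈ t := ht _ hxy _ (by simp)
  have hy : y ∈ t := ht _ hxy _ (by simp)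
  obtain ⟨T, hT⟩ := exists_isE hP ht
  have key : ∀ z, z ∈ t → ∀ w, w ∈ t → ∀ s, s ∈ P →
      (EqF P le z w s ↔ op (op z w) s ∈ T) := by
    intro z hz w hw s hs
    constructor
    · rintro ⟨-, t', T', ht', hz', hw', hT', h⟩
      exact (IsE.unique hP ht ht' hT hT' z hz hz' w hw hw' s hs).2 h
    · intro h
      exact ⟨hs, t, T, ht, hz, hw, hT, h⟩
  rw [key x hx y hy p hp, hT x hx y hy p hp]
  constructor
  · rintro ⟨h1, h2⟩
    refine ⟨fun z r hz q hq hq' => ?_, fun w r hw q hq hq' => ?_⟩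
    · obtain ⟨s, hs, w, r', hw, hs', hs''⟩ := h1 z r hz q hq hq'
      exact ⟨s, hs, w, r', hw, hs', (key z (mem_of_op_mem ht hx hz) w (mem_of_op_mem ht hy hw) s
        (hP.sub _ _ hs).1).2 hs''⟩
    · obtain ⟨s, hs, z, r', hz, hs', hs''⟩ := h2 w r hw q hq hq'
      exact ⟨s, hs, z, r', hz, hs', (key z (mem_of_op_mem ht hx hz) w (mem_of_op_mem ht hy hw) s
        (hP.sub _ _ hs).1).2 hs''⟩
  · rintro ⟨h1, h2⟩
    refine ⟨fun z r hz q hq hq' => ?_, fun w r hw q hq hq' => ?_⟩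
    · obtain ⟨s, hs, w, r', hw, hs', hs''⟩ := h1 z r hz q hq hq'
      exact ⟨s, hs, w, r', hw, hs', (key z (mem_of_op_mem ht hx hz) w (mem_of_op_mem ht hy hw) s
        (hP.sub _ _ hs).1).1 hs''⟩
    · obtain ⟨s, hs, z, r', hz, hs', hs''⟩ := h2 w r hw q hq hq'
      exact ⟨s, hs, z, r', hz, hs', (key z (mem_of_op_mem ht hx hz) w (mem_of_op_mem ht hy hw) s
        (hP.sub _ _ hs).1).1 hs''⟩

theorem EqF.mem {P le x y p : M} (h : EqF P le x y p) : p ∈ P := h.1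

section

variable {P le one : M} (hP : PO P le one)

include hP

theorem EqF.mono {x y p q : M} (h : EqF P le x y p) (hq : op q p ∈ le) : EqF P le x y q := by
  obtain ⟨h1, h2⟩ := (eqF_iff hP h.mem).1 h
  refine (eqF_iff hP (hP.sub _ _ hq).1).2 ⟨fun z r hz s hs hs' => ?_, fun w r hw s hs hs' => ?_⟩
  · exact h1 z r hz s (hP.trans _ _ _ hs hq) hs'
  · exact h2 w r hw s (hP.trans _ _ _ hs hq) hs'

theorem eqF_of_dense {x y p : M} (hp : p ∈ P)
    (h : ∀ q, op q p ∈ le → ∃ s, op s q ∈ le ∧ EqF P le x y s) : EqF P le x y p := by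
  refine (eqF_iff hP hp).2 ⟨fun z r hz q hq hq' => ?_, fun w r hw q hq hq' => ?_⟩
  · obtain ⟨s, hs, hs'⟩ := h q hq
    obtain ⟨a, ha, b, c, hb, hac, hab⟩ := ((eqF_iff hP hs'.mem).1 hs').1 z r hz s
      (hP.refl _ hs'.mem) (hP.trans _ _ _ hs hq')
    exact ⟨a, hP.trans _ _ _ ha hs, b, c, hb, hac, hab⟩
  · obtain ⟨s, hs, hs'⟩ := h q hq
    obtain ⟨a, ha, b, c, hb, hac, hab⟩ := ((eqF_iff hP hs'.mem).1 hs').2 w r hw s
      (hP.refl _ hs'.mem) (hP.trans _ _ _ hs hq')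
    exact ⟨a, hP.trans _ _ _ ha hs, b, c, hb, hac, hab⟩

theorem eqF_refl (x : M) : ∀ p, p ∈ P → EqF P le x x p := by
  refine name_ind (Q := fun x => ∀ p, p ∈ P → EqF P le x x p)
    (by simp (maxDischargeDepth := 50)) ?_ x
  intro x ih p hp
  refine (eqF_iff hP hp).2 ⟨fun z r hz q hq hq' => ?_, fun w r hw q hq hq' => ?_⟩
  · have hqP := (hP.sub _ _ hq).1
    exact ⟨q, hP.refl _ hqP, z, r, hz, hq', ih z r hz q hqP⟩
  · have hqP := (hP.sub _ _ hq).1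
    exact ⟨q, hP.refl _ hqP, w, r, hw, hq', ih w r hw q hqP⟩

theorem eqF_symm' (x : M) : ∀ y p, EqF P le x y p → EqF P le y x p := by
  refine name_ind (Q := fun x => ∀ y p, EqF P le x y p → EqF P le y x p)
    (by simp (maxDischargeDepth := 50)) ?_ x
  intro x ih y p h
  obtain ⟨h1, h2⟩ := (eqF_iff hP h.mem).1 h
  refine (eqF_iff hP h.mem).2 ⟨fun w r hw q hq hq' => ?_, fun z r hz q hq hq' => ?_⟩
  · obtain ⟨s, hs, z, r', hz, hs', hs''⟩ := h2 w r hw q hq hq'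
    exact ⟨s, hs, z, r', hz, hs', ih z r' hz w s hs''⟩
  · obtain ⟨s, hs, w, r', hw, hs', hs''⟩ := h1 z r hz q hq hq'
    exact ⟨s, hs, w, r', hw, hs', ih z r hz w s hs''⟩

theorem EqF.symm {x y p : M} (h : EqF P le x y p) : EqF P le y x p := eqF_symm' hP x y p h

theorem eqF_trans' (x : M) : ∀ y z p, EqF P le x y p → EqF P le y z p → EqF P le x z p := by
  refine name_ind (Q := fun x => ∀ y z p, EqF P le x y p → EqF P le y z p → EqF P le x z p)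
    (by simp (maxDischargeDepth := 50)) ?_ x
  intro x ih y z p hxy hyz
  obtain ⟨h1, h2⟩ := (eqF_iff hP hxy.mem).1 hxy
  obtain ⟨h3, h4⟩ := (eqF_iff hP hyz.mem).1 hyz
  refine (eqF_iff hP hxy.mem).2 ⟨fun u r hu q hq hq' => ?_, fun w r hw q hq hq' => ?_⟩
  · obtain ⟨s, hs, v, r', hv, hs', huv⟩ := h1 u r hu q hq hq'
    obtain ⟨s', hs1, w, r'', hw, hs2, hvw⟩ := h3 v r' hv s (hP.trans _ _ _ hs hq) hs'
    exact ⟨s', hP.trans _ _ _ hs1 hs, w, r'', hw, hs2, ih u r hu v w s' (huv.mono hP hs1) hvw⟩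
  · obtain ⟨s, hs, v, r', hv, hs', hvw⟩ := h4 w r hw q hq hq'
    obtain ⟨s', hs1, u, r'', hu, hs2, huv⟩ := h2 v r' hv s (hP.trans _ _ _ hs hq) hs'
    exact ⟨s', hP.trans _ _ _ hs1 hs, u, r'', hu, hs2, ih u r'' hu v w s' huv (hvw.mono hP hs1)⟩

theorem EqF.trans {x y z p : M} (h : EqF P le x y p) (h' : EqF P le y z p) : EqF P le x z p :=
  eqF_trans' hP x y z p h h'

end

/-- The relation `p ⊩ x ∈ y`. -/
def MemF (P le x y p : M) : Prop :=
  p ∈ P ∧ ∀ q, op q p ∈ le → ∃ s, op s q ∈ le ∧ ∃ w t, op w t ∈ y ∧ op s t ∈ le ∧ EqF P le x w s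

theorem MemF.dfn : Dfn (fun w : Fin 5 → M => MemF (w 0) (w 1) (w 2) (w 3) (w 4)) := by
  unfold MemF; simp (maxDischargeDepth := 50)

@[simp] theorem dfn_MemF {n : ℕ} {a b c d e : (Fin n → M) → M} (ha : DT a) (hb : DT b) (hc : DT c)
    (hd : DT d) (he : DT e) : Dfn (fun v => MemF (a v) (b v) (c v) (d v) (e v)) :=
  dfn5 MemF.dfn ha hb hc hd he

section

variable {P le one : M} (hP : PO P le one)

include hP

theorem MemF.mono {x y p q : M} (h : MemF P le x y p) (hq : op q p ∈ le) : MemF P le x y q :=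
  ⟨(hP.sub _ _ hq).1, fun r hr => h.2 r (hP.trans _ _ _ hr hq)⟩

theorem memF_of_dense {x y p : M} (hp : p ∈ P)
    (h : ∀ q, op q p ∈ le → ∃ s, op s q ∈ le ∧ MemF P le x y s) : MemF P le x y p := by
  refine ⟨hp, fun q hq => ?_⟩
  obtain ⟨s, hs, hs'⟩ := h q hq
  obtain ⟨a, ha, w, r, hw, har, hxw⟩ := hs'.2 s (hP.refl _ hs'.1)
  exact ⟨a, hP.trans _ _ _ ha hs, w, r, hw, har, hxw⟩

theorem memF_of_mem {x y r p : M} (h : op x r ∈ y) (hp : op p r ∈ le) : MemF P le x y p :=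
  ⟨(hP.sub _ _ hp).1, fun q hq => ⟨q, hP.refl _ (hP.sub _ _ hq).1, x, r, h,
    hP.trans _ _ _ hq hp, eqF_refl hP x q (hP.sub _ _ hq).1⟩⟩

theorem MemF.congr_left {x x' y p : M} (h : MemF P le x y p) (h' : EqF P le x x' p) :
    MemF P le x' y p := by
  refine ⟨h.1, fun q hq => ?_⟩
  obtain ⟨s, hs, w, r, hw, hsr, hxw⟩ := h.2 q hq
  exact ⟨s, hs, w, r, hw, hsr, ((h'.mono hP (hP.trans _ _ _ hs hq)).symm hP).trans hP hxw⟩

theorem MemF.congr_right {x y y' p : M} (h : MemF P le x y p) (h' : EqF P le y y' p) :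
    MemF P le x y' p := by
  refine ⟨h.1, fun q hq => ?_⟩
  obtain ⟨s, hs, w, r, hw, hsr, hxw⟩ := h.2 q hq
  obtain ⟨s', hs', w', r', hw', hsr', hww'⟩ := ((eqF_iff hP h.1).1 h').1 w r hw s
    (hP.trans _ _ _ hs hq) hsr
  exact ⟨s', hP.trans _ _ _ hs' hs, w', r', hw', hsr', (hxw.mono hP hs').trans hP hww'⟩

/-- Equality of names is forced iff the names have the same elements. -/
theorem eqF_iff_memF {x y p : M} (hp : p ∈ P) : EqF P le x y p ↔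
    (∀ z r, op z r ∈ x → ∀ q, op q p ∈ le → op q r ∈ le → MemF P le z y q) ∧
    (∀ w r, op w r ∈ y → ∀ q, op q p ∈ le → op q r ∈ le → MemF P le w x q) := by
  rw [eqF_iff hP hp]
  constructor
  · rintro ⟨h1, h2⟩
    refine ⟨fun z r hz q hq hq' => ⟨(hP.sub _ _ hq).1, fun q' hq'' => ?_⟩,
      fun w r hw q hq hq' => ⟨(hP.sub _ _ hq).1, fun q' hq'' => ?_⟩⟩
    · exact h1 z r hz q' (hP.trans _ _ _ hq'' hq) (hP.trans _ _ _ hq'' hq')
    · obtain ⟨s, hs, z, r', hz, hs', hs''⟩ := h2 w r hw q' (hP.trans _ _ _ hq'' hq)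
        (hP.trans _ _ _ hq'' hq')
      exact ⟨s, hs, z, r', hz, hs', hs''.symm hP⟩
  · rintro ⟨h1, h2⟩
    refine ⟨fun z r hz q hq hq' => ?_, fun w r hw q hq hq' => ?_⟩
    · exact (h1 z r hz q hq hq').2 q (hP.refl _ (hP.sub _ _ hq).1)
    · obtain ⟨s, hs, z, r', hz, hs', hs''⟩ :=
        (h2 w r hw q hq hq').2 q (hP.refl _ (hP.sub _ _ hq).1)
      exact ⟨s, hs, z, r', hz, hs', hs''.symm hP⟩

end

end Pool.Agent.Frc
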