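import Pool.Agent.Frc.Check

/-!
# Covering: functions of the extension on copies
-/

universe u

set_option linter.unusedSectionVars false

namespace Pool.Agent.Frc

open Pool.Agent.SigB

variable {M : Type u} [Membership M M] [IsZFC M] {P le one : M} {G : M → Prop} {N : Type u}
  [Membership N N] {val : M → N} [IsZFC N]

/-- The covering lemma for a definable relation of the extension. -/
theorem Ext.cover_rel (hE : Ext P le one G val) {R : N → N → Prop}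
    (hR : Dfn (fun w : Fin 2 → N => R (w 0) (w 1))) (A B : M) (hB : ∃ b, b ∈ B) :
    ∃ H, H ∈ fs (pd A P) B ∧ ∀ a, a ∈ A → ∀ b, b ∈ B → R (val (ck one a)) (val (ck one b)) →
      ∃ p, G p ∧ ap H (op a p) ∈ B ∧ R (val (ck one a)) (val (ck one (ap H (op a p)))) := by
  obtain ⟨F, hF, hFP, hFm, hFd, hFt⟩ := hE.forcing2 hR
  have hF' : ∀ {n : ℕ} {s t r : (Fin n → M) → M}, DT s → DT t → DT r →
      Dfn fun v => F (s v) (t v) (r v) := fun hs ht hr => dfn3 hF hs ht hr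
  obtain ⟨b₀, hb₀⟩ := hB
  obtain ⟨H, hH, hHs⟩ := choice' (a := pd A P) (b := B)
    (P := fun x y => ∀ a p, x = op a p →
      (F p (ck one a) (ck one y) ∨ ∀ b, b ∈ B → ¬ F p (ck one a) (ck one b)))
    (by simp (maxDischargeDepth := 50) [hF']) (by
      intro x hx
      obtain ⟨a, ha, p, hp, rfl⟩ := mem_pd.1 hx
      by_cases h : ∃ b, b ∈ B ∧ F p (ck one a) (ck one b)
      · obtain ⟨b, hb, h⟩ := h
        refine ⟨b, hb, fun a' p' he => ?_⟩
        obtain ⟨rfl, rfl⟩ := op_inj.1 he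
        exact Or.inl h
      · push Not at h
        refine ⟨b₀, hb₀, fun a' p' he => ?_⟩
        obtain ⟨rfl, rfl⟩ := op_inj.1 he
        exact Or.inr h)
  refine ⟨H, hH, fun a ha b hb hab => ?_⟩
  obtain ⟨p, hp, hFp⟩ := (hFt _ _).1 hab
  have hmem : op a p ∈ pd A P := op_mem_pd.2 ⟨ha, hE.gen.mem p hp⟩
  refine ⟨p, hp, (mem_fs.1 hH).2 _ hmem, ?_⟩
  rcases hHs _ hmem a p rfl with h | h
  · exact (hFt _ _).2 ⟨p, hp, h⟩
  · exact absurd hFp (h b hb)

/-- The covering function of a function of the extension. -/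
theorem Ext.cover (hE : Ext P le one G val) {A B : M} {f : N}
    (hf : f ∈ fs (val (ck one A)) (val (ck one B))) (hB : ∃ b, b ∈ B) :
    ∃ H, H ∈ fs (pd A P) B ∧ ∀ a, a ∈ A →
      ∃ p, G p ∧ ap f (val (ck one a)) = val (ck one (ap H (op a p))) := by
  obtain ⟨H, hH, h⟩ := hE.cover_rel (R := fun x y => op x y ∈ f)
    (by simp (maxDischargeDepth := 50)) A B hB
  refine ⟨H, hH, fun a ha => ?_⟩
  obtain ⟨hf1, hf2⟩ := mem_fs.1 hf
  have ha' : val (ck one a) ∈ val (ck one A) := hE.cv_mem.2 ha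
  obtain ⟨b, hb, he⟩ := hE.mem_cv.1 (hf2 _ ha')
  obtain ⟨p, hp, -, h1⟩ := h a ha b hb ((hf1.op_mem_iff ha').2 he)
  exact ⟨p, hp, (hf1.op_mem_iff ha').1 h1⟩

/-- A relation of the extension which covers the copy of `K` from the copy of `A`. -/
theorem Ext.cover_onto (hE : Ext P le one G val) {R : N → N → Prop}
    (hR : Dfn (fun w : Fin 2 → N => R (w 0) (w 1))) {A K : M}
    (hun : ∀ a, a ∈ A → ∀ k, k ∈ K → ∀ k', k' ∈ K → R (val (ck one a)) (val (ck one k)) →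
      R (val (ck one a)) (val (ck one k')) → k = k')
    (hs : ∀ k, k ∈ K → ∃ a, a ∈ A ∧ R (val (ck one a)) (val (ck one k))) (hK : ∃ k, k ∈ K) :
    ∃ H, H ∈ fs (pd A P) K ∧ ∀ k, k ∈ K → ∃ x, x ∈ pd A P ∧ ap H x = k := by
  obtain ⟨H, hH, h⟩ := hE.cover_rel hR A K hK
  refine ⟨H, hH, fun k hk => ?_⟩
  obtain ⟨a, ha, hak⟩ := hs k hk
  obtain ⟨p, hp, h1, h2⟩ := h a ha k hk hak
  exact ⟨op a p, op_mem_pd.2 ⟨ha, hE.gen.mem p hp⟩, hun a ha _ h1 k hk h2 hak⟩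

/-- If the copy of `K` injects into the copy of `A` then `A × P` maps onto `K`. -/
theorem Ext.cover_inj (hE : Ext P le one G val) {A K : M} {g : N}
    (hg : g ∈ fs (val (ck one K)) (val (ck one A)))
    (hinj : ∀ x, x ∈ val (ck one K) → ∀ y, y ∈ val (ck one K) → ap g x = ap g y → x = y)
    (hK : ∃ k, k ∈ K) :
    ∃ H, H ∈ fs (pd A P) K ∧ ∀ k, k ∈ K → ∃ x, x ∈ pd A P ∧ ap H x = k := by
  obtain ⟨hg1, hg2⟩ := mem_fs.1 hg
  refine hE.cover_onto (R := fun x y => op y x ∈ g) (by simp (maxDischargeDepth := 50))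
    (fun a _ k hk k' hk' h h' => ?_) (fun k hk => ?_) hK
  · have hk1 : val (ck one k) ∈ val (ck one K) := hE.cv_mem.2 hk
    have hk2 : val (ck one k') ∈ val (ck one K) := hE.cv_mem.2 hk'
    refine hE.cv_inj.1 (hinj _ hk1 _ hk2 ?_)
    rw [(hg1.op_mem_iff hk1).1 h, (hg1.op_mem_iff hk2).1 h']
  · have hk1 : val (ck one k) ∈ val (ck one K) := hE.cv_mem.2 hk
    obtain ⟨a, ha, he⟩ := hE.mem_cv.1 (hg2 _ hk1)
    exact ⟨a, ha, (hg1.op_mem_iff hk1).2 he⟩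

/-- If the copy of `A` maps onto the copy of `K` then `A × P` maps onto `K`. -/
theorem Ext.cover_surj (hE : Ext P le one G val) {A K : M} {f : N}
    (hf : Fn f (val (ck one A)))
    (hs : ∀ y, y ∈ val (ck one K) → ∃ x, x ∈ val (ck one A) ∧ ap f x = y) (hK : ∃ k, k ∈ K) :
    ∃ H, H ∈ fs (pd A P) K ∧ ∀ k, k ∈ K → ∃ x, x ∈ pd A P ∧ ap H x = k := by
  refine hE.cover_onto (R := fun x y => op x y ∈ f) (by simp (maxDischargeDepth := 50))
    (fun a ha k hk k' hk' h h' => ?_) (fun k hk => ?_) hK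
  · have ha1 : val (ck one a) ∈ val (ck one A) := hE.cv_mem.2 ha
    refine hE.cv_inj.1 ?_
    rw [← (hf.op_mem_iff ha1).1 h, (hf.op_mem_iff ha1).1 h']
  · obtain ⟨x, hx, he⟩ := hs _ (hE.cv_mem.2 hk)
    obtain ⟨a, ha, rfl⟩ := hE.mem_cv.1 hx
    exact ⟨a, ha, (hf.op_mem_iff hx).2 he⟩

/-- The part of `x` inside the copy of `A` is coded by a subset of `A × P` which belongs to `M`
(nice names). -/
theorem Ext.nice (hE : Ext P le one G val) (A : M) (x : N) :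
    ∃ S, Sb S (pd A P) ∧ ∀ a, a ∈ A → (val (ck one a) ∈ x ↔ ∃ p, G p ∧ op a p ∈ S) := by
  obtain ⟨F, hF, hFP, hFm, hFd, hFt⟩ := hE.forcing1 (R := fun y => y ∈ x)
    (by simp (maxDischargeDepth := 50))
  have hF' : ∀ {n : ℕ} {s t : (Fin n → M) → M}, DT s → DT t →
      Dfn fun v => F (s v) (t v) := fun hs ht => dfn2 hF hs ht
  let S : M := sp (pd A P) fun z => ∃ a p, z = op a p ∧ F p (ck one a)
  have hS : ∀ a p, op a p ∈ S ↔ (a ∈ A ∧ p ∈ P) ∧ F p (ck one a) := by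
    intro a p
    have h1 : op a p ∈ S ↔ op a p ∈ pd A P ∧ ∃ a' p', op a p = op a' p' ∧ F p' (ck one a') :=
      mem_sp (by simp (maxDischargeDepth := 50) [hF'])
    rw [h1, op_mem_pd]
    refine and_congr_right fun _ => ⟨?_, fun h => ⟨a, p, rfl, h⟩⟩
    rintro ⟨a', p', he, h⟩
    obtain ⟨rfl, rfl⟩ := op_inj.1 he
    exact h
  refine ⟨S, fun z hz => ?_, fun a ha => ?_⟩
  · have h1 : z ∈ S ↔ z ∈ pd A P ∧ ∃ a' p', z = op a' p' ∧ F p' (ck one a') :=
      mem_sp (by simp (maxDischargeDepth := 50) [hF'])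
    exact (h1.1 hz).1
  · rw [hFt]
    constructor
    · rintro ⟨p, hp, h⟩
      exact ⟨p, hp, (hS a p).2 ⟨⟨ha, hFP _ _ h⟩, h⟩⟩
    · rintro ⟨p, hp, h⟩
      exact ⟨p, hp, ((hS a p).1 h).2⟩

end Pool.Agent.Frc
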